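import Pool.Agent.E8helper62.LP.OS2

/-!
# The statements in the variable `u`
-/

set_option autoImplicit false

open MeasureTheory Filter Topology Set Pool.Agent.H295R2

namespace Pool.Agent.E8helper62.LP

noncomputable section

/-- the nontrivial zeros -/
def NZ : Set ℂ := {s : ℂ | riemannZeta s = 0 ∧ 0 < s.re ∧ s.re < 1}

lemma cov (G : ℝ → ℝ) {x : ℝ} (hx : 1 ≤ x) :
    ∫ u in (1:ℝ)..x, G u / u = ∫ s in Ioc 0 (Real.log x), G (Real.exp s) := by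
  have hx0 : 0 < x := by linarith
  rw [intervalIntegral.integral_of_le hx]
  have h := integral_image_eq_integral_abs_deriv_smul (s := Ioc 0 (Real.log x)) (f := Real.exp) (f' := Real.exp)
    measurableSet_Ioc (fun x _ => (Real.hasDerivAt_exp x).hasDerivWithinAt) (Real.exp_injective.injOn)
    (fun u => G u / u)
  have himg : Real.exp '' Ioc 0 (Real.log x) = Ioc 1 x := by
    ext y
    simp only [mem_image, mem_Ioc]
    constructor
    · rintro ⟨s, hs, rfl⟩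
      exact ⟨Real.one_lt_exp_iff.2 hs.1, (Real.le_log_iff_exp_le hx0).1 hs.2⟩
    · intro hy
      have hy0 : 0 < y := by linarith [hy.1]
      exact ⟨Real.log y, ⟨Real.log_pos hy.1, Real.log_le_log hy0 hy.2⟩, Real.exp_log hy0⟩
  rw [himg] at h
  rw [h]
  refine integral_congr_ae (Eventually.of_forall fun s => ?_)
  simp only
  rw [abs_of_pos (Real.exp_pos s), smul_eq_mul]
  have := (Real.exp_pos s).ne'
  field_simp

lemma sqrt_exp (s : ℝ) : Real.sqrt (Real.exp s) = Real.exp (s / 2) := by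
  rw [Real.sqrt_eq_iff_mul_self_eq (Real.exp_pos _).le (Real.exp_pos _).le, ← Real.exp_add]
  congr 1; ring

/-- the mean of order `p` -/
lemma cov_p (p : ℝ) {x : ℝ} (hx : 1 ≤ x) :
    ∫ u in (1:ℝ)..x, (|Mx u| / Real.sqrt u) ^ p / u = Ap p (Real.log x) := by
  rw [cov (fun u => (|Mx u| / Real.sqrt u) ^ p) hx]
  unfold Ap
  refine integral_congr_ae (Eventually.of_forall fun s => ?_)
  simp only
  rw [abs_ff, sqrt_exp, Real.exp_neg, div_eq_mul_inv]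

/-- the one-sided mean -/
lemma cov_s (s : ℝ) {x : ℝ} (hx : 1 ≤ x) :
    ∫ u in (1:ℝ)..x, (max (s * Mx u) 0 / Real.sqrt u) / u = As s (Real.log x) := by
  rw [cov (fun u => max (s * Mx u) 0 / Real.sqrt u) hx]
  unfold As gs
  refine integral_congr_ae (Eventually.of_forall fun s => ?_)
  simp only
  rw [sqrt_exp, Real.exp_neg, div_eq_mul_inv]

lemma freq_log' {F G : ℝ → ℝ} {C : ℝ} (hFG : ∀ x, 1 ≤ x → F x = G (Real.log x))
    (h : ∃ᶠ x in atTop, F x ≤ C * Real.log x) : ∃ᶠ L in atTop, G L ≤ C * L := by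
  have h2 := (h.and_eventually (eventually_ge_atTop 1)).mono (fun x hx => by
    rw [hFG x hx.2] at hx; exact hx.1 :
      ∀ x : ℝ, (F x ≤ C * Real.log x ∧ 1 ≤ x) → G (Real.log x) ≤ C * Real.log x)
  exact Real.tendsto_log_atTop.frequently h2

lemma norm_ww (ρ : ℂ) : ‖ww ρ‖ = 1 / ‖ρ * deriv riemannZeta ρ‖ := by
  unfold ww
  rw [norm_div, norm_one]

lemma zeros_of_A1 {C : ℝ} (h : ∃ᶠ L in atTop, A1 L ≤ C * L) : ∀ ρ ∈ NZ, ρ.re = 1 / 2 ∧ deriv riemannZeta ρ ≠ 0 := by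
  intro ρ hρ
  have h1 := on_line h hρ.1 hρ.2.1 hρ.2.2
  exact ⟨h1, simple_zero h h1 hρ.1⟩

/-- one-sided -/
theorem fin_one {s : ℝ} (hs : s = 1 ∨ s = -1) {K : ℝ}
    (h : ∃ᶠ x in atTop, ∫ u in (1:ℝ)..x, (max (s * Mx u) 0 / Real.sqrt u) / u ≤ K * Real.log x) :
    (∀ ρ ∈ NZ, ρ.re = 1 / 2 ∧ deriv riemannZeta ρ ≠ 0) ∧
    ∀ ρ ∈ NZ, 1 / ‖ρ * deriv riemannZeta ρ‖ ≤ 2 * K := by
  have h1 := freq_log' (G := As s) (fun x hx => cov_s s hx) h
  obtain ⟨C, h2⟩ := os_freq hs h1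
  have h3 := zeros_of_A1 h2
  refine ⟨h3, fun ρ hρ => ?_⟩
  rw [← norm_ww]
  exact os_ww_le hs h1 (h3 ρ hρ).1 hρ.1

/-- two-sided, order one -/
theorem fin_two {K : ℝ}
    (h : ∃ᶠ x in atTop, ∫ u in (1:ℝ)..x, (|Mx u| / Real.sqrt u) / u ≤ K * Real.log x) :
    ∀ ρ ∈ NZ, 1 / ‖ρ * deriv riemannZeta ρ‖ ≤ K := by
  have h1 := freq_log' (G := A1) (fun x hx => by
    have := cov_p 1 hx
    simp only [Real.rpow_one] at this
    rw [this]
    unfold Ap A1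
    simp only [Real.rpow_one]) h
  have h3 := zeros_of_A1 h1
  intro ρ hρ
  rw [← norm_ww]
  exact ww_le h1 (h3 ρ hρ).1 hρ.1

/-- order `p` -/
theorem fin_p {p q : ℝ} (hpq : p.HolderConjugate q) (hp2 : p ≤ 2) {K : ℝ} (hK : 0 ≤ K)
    (h : ∃ᶠ x in atTop, ∫ u in (1:ℝ)..x, (|Mx u| / Real.sqrt u) ^ p / u ≤ K ^ p * Real.log x) :
    (∀ ρ ∈ NZ, ρ.re = 1 / 2 ∧ deriv riemannZeta ρ ≠ 0) ∧
    Summable (fun ρ : NZ => (1 / ‖(ρ : ℂ) * deriv riemannZeta ρ‖) ^ q) ∧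
    ∑' ρ : NZ, (1 / ‖(ρ : ℂ) * deriv riemannZeta ρ‖) ^ q ≤ K ^ q := by
  have h1 := freq_log' (G := Ap p) (fun x hx => cov_p p hx) h
  have h2 : ∃ᶠ L in atTop, A1 L ≤ K * L :=
    (h1.and_eventually (eventually_ge_atTop 0)).mono fun L hL => A1_le hpq hL.2 hK hL.1
  have h3 := zeros_of_A1 h2
  have hsum : ∀ u : Finset NZ, ∑ ρ ∈ u, (1 / ‖(ρ : ℂ) * deriv riemannZeta ρ‖) ^ q ≤ K ^ q := by
    intro u
    classical
    have h4 := lq_bound hpq hp2 hK h1 (u.map (Function.Embedding.subtype _)) (fun ρ hρ => by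
      rw [Finset.mem_map] at hρ
      obtain ⟨ρ', -, rfl⟩ := hρ
      exact ⟨(h3 _ ρ'.2).1, ρ'.2.1, (h3 _ ρ'.2).2⟩)
    rw [Finset.sum_map] at h4
    simpa only [Function.Embedding.subtype_apply, norm_ww] using h4
  exact ⟨h3, summable_of_sum_le (fun ρ => by positivity) hsum,
    Real.tsum_le_of_sum_le (fun ρ => by positivity) hsum⟩

end

end Pool.Agent.E8helper62.LP
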