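import Mathlib

/-!
# The inequality of Hausdorff and Young for finitely many almost orthogonal functions of modulus at most one
-/

set_option autoImplicit false

open MeasureTheory Filter Topology Complex Set

namespace Pool.Agent.E8helper62.LP

noncomputable section

/-- `y / |y| · |y| ^ (p (1 - z / 2))` -/
def pw (p : ℝ) (y z : ℂ) : ℂ :=
  if y = 0 then 0 else (y / (‖y‖ : ℂ)) * exp ((p : ℂ) * (1 - z / 2) * (Real.log ‖y‖ : ℂ))

lemma pw_zero (p : ℝ) (z : ℂ) : pw p 0 z = 0 := by simp [pw]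

lemma norm_pw {p : ℝ} (y : ℂ) {z : ℂ} (hp : 0 < p * (1 - z.re / 2)) :
    ‖pw p y z‖ = ‖y‖ ^ (p * (1 - z.re / 2)) := by
  unfold pw
  split_ifs with h
  · rw [h, norm_zero, Real.zero_rpow hp.ne']
  · have hy : 0 < ‖y‖ := norm_pos_iff.2 h
    rw [norm_mul, norm_div, Complex.norm_real, norm_norm, div_self hy.ne', one_mul, Complex.norm_exp,
      Real.rpow_def_of_pos hy]
    congr 1
    have e : (p : ℂ) * (1 - z / 2) * (Real.log ‖y‖ : ℂ) = (1 - z / 2) * ((p * Real.log ‖y‖ : ℝ) : ℂ) := by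
      push_cast; ring
    rw [e, Complex.re_mul_ofReal]
    have e2 : (1 - z / 2 : ℂ).re = 1 - z.re / 2 := by
      simp
    rw [e2]; ring

lemma pw_diff (p : ℝ) (y : ℂ) : Differentiable ℂ (pw p y) := by
  unfold pw
  split_ifs with h
  · exact differentiable_const _
  · fun_prop

lemma pw_theta {p : ℝ} {θ : ℝ} (h : p * (1 - θ / 2) = 1) (y : ℂ) : pw p y (θ : ℂ) = y := by
  unfold pw
  split_ifs with h0
  · rw [h0]
  · have hy : 0 < ‖y‖ := norm_pos_iff.2 h0
    have e : (p : ℂ) * (1 - (θ : ℂ) / 2) * (Real.log ‖y‖ : ℂ) = ((p * (1 - θ / 2) * Real.log ‖y‖ : ℝ) : ℂ) := by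
      push_cast; ring
    rw [e, h, one_mul, ← Complex.ofReal_exp, Real.exp_log hy]
    have : (‖y‖ : ℂ) ≠ 0 := by exact_mod_cast hy.ne'
    field_simp

lemma pw_dual {q : ℝ} {θ : ℝ} (hθ : q * (1 - θ / 2) = q - 1) (hq : q ≠ 0) (a : ℂ) :
    pw q ((starRingEnd ℂ) a) (θ : ℂ) * a = ((‖a‖ ^ q : ℝ) : ℂ) := by
  by_cases h0 : a = 0
  · rw [h0, mul_zero, norm_zero, Real.zero_rpow hq]; simp
  · have ha : 0 < ‖a‖ := norm_pos_iff.2 h0
    have hc : (starRingEnd ℂ) a ≠ 0 := by simpa using h0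
    unfold pw
    rw [if_neg hc, RCLike.norm_conj]
    have e : (q : ℂ) * (1 - (θ : ℂ) / 2) * (Real.log ‖a‖ : ℂ) = ((q * (1 - θ / 2) * Real.log ‖a‖ : ℝ) : ℂ) := by
      push_cast; ring
    rw [e, hθ, ← Complex.ofReal_exp]
    have h1 : (starRingEnd ℂ) a * a = ((‖a‖ ^ 2 : ℝ) : ℂ) := by
      rw [← Complex.normSq_eq_conj_mul_self, Complex.normSq_eq_norm_sq]
    have hne : (‖a‖ : ℂ) ≠ 0 := by exact_mod_cast ha.ne'
    have h2 : (starRingEnd ℂ) a / (‖a‖ : ℂ) * ((Real.exp ((q - 1) * Real.log ‖a‖) : ℝ) : ℂ) * a =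
        ((‖a‖ * Real.exp ((q - 1) * Real.log ‖a‖) : ℝ) : ℂ) := by
      have : (starRingEnd ℂ) a / (‖a‖ : ℂ) * ((Real.exp ((q - 1) * Real.log ‖a‖) : ℝ) : ℂ) * a =
          ((starRingEnd ℂ) a * a) / (‖a‖ : ℂ) * ((Real.exp ((q - 1) * Real.log ‖a‖) : ℝ) : ℂ) := by ring
      rw [this, h1]
      push_cast
      field_simp
    rw [h2]
    congr 1
    rw [Real.rpow_def_of_pos ha]
    nth_rewrite 1 [← Real.exp_log ha]
    rw [← Real.exp_add]
    congr 1
    ring

variable {α : Type*} [MeasurableSpace α]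

lemma simple_int {μ : Measure α} (g : SimpleFunc α ℂ) (ψ : ℂ → ℂ) {e : α → ℂ} (he : Integrable e μ) :
    ∫ x, ψ (g x) * e x ∂μ = ∑ y ∈ g.range, ψ y * ∫ x in g ⁻¹' {y}, e x ∂μ := by
  classical
  have h : ∀ x, ψ (g x) * e x = ∑ y ∈ g.range, (g ⁻¹' {y}).indicator (fun x => ψ y * e x) x := by
    intro x
    rw [Finset.sum_eq_single (g x)]
    · rw [indicator_of_mem (by simp)]
    · intro y _ hy
      rw [indicator_of_notMem]
      simp only [mem_preimage, mem_singleton_iff]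
      exact fun h => hy h.symm
    · intro hx
      exact absurd (g.mem_range_self x) hx
  simp_rw [h]
  rw [integral_finsetSum]
  · refine Finset.sum_congr rfl fun y _ => ?_
    rw [integral_indicator (g.measurableSet_fiber y), integral_const_mul]
  · intro y _
    exact (he.const_mul _).indicator (g.measurableSet_fiber y)

lemma rpow_le_one_add {t s q : ℝ} (ht : 0 ≤ t) (hs : 0 ≤ s) (hsq : s ≤ q) : t ^ s ≤ (1 + t) ^ q := by
  calc t ^ s ≤ (1 + t) ^ s := Real.rpow_le_rpow ht (by linarith) hs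
    _ ≤ (1 + t) ^ q := Real.rpow_le_rpow_of_exponent_le (by linarith) hsq

/-- a simple function composed with any function is integrable on a finite measure space -/
lemma simple_comp_int {μ : Measure α} [IsFiniteMeasure μ] {E : Type*} [NormedAddCommGroup E]
    (g : SimpleFunc α ℂ) (ψ : ℂ → E) : Integrable (fun x => ψ (g x)) μ := by
  have h := (g.map ψ).integrable_of_isFiniteMeasure (μ := μ)
  simpa [Function.comp_def] using h

theorem hy_simple {μ : Measure α} [IsFiniteMeasure μ] {ι : Type*} (Z : Finset ι) (e : ι → α → ℂ)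
    (he : ∀ i ∈ Z, Measurable (e i)) (he1 : ∀ i ∈ Z, ∀ x, ‖e i x‖ ≤ 1) {N : ℝ} (hN : 0 ≤ N)
    (hB : ∀ h : α → ℂ, Measurable h → (∃ C, ∀ x, ‖h x‖ ≤ C) →
      ∑ i ∈ Z, ‖∫ x, h x * e i x ∂μ‖ ^ 2 ≤ N ^ 2 * ∫ x, ‖h x‖ ^ 2 ∂μ)
    {p q : ℝ} (hpq : p.HolderConjugate q) (hp2 : p ≤ 2) (g : SimpleFunc α ℂ) :
    ∑ i ∈ Z, ‖∫ x, g x * e i x ∂μ‖ ^ q ≤ N ^ 2 * (∫ x, ‖g x‖ ^ p ∂μ) ^ (q / p) := by
  have hp1 : 1 < p := hpq.lt
  have hq0 : 0 < q := hpq.symm.pos
  have hp0 : 0 < p := hpq.pos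
  have hei : ∀ i ∈ Z, Integrable (e i) μ := fun i hi =>
    Integrable.of_bound (he i hi).aestronglyMeasurable 1 (Eventually.of_forall (he1 i hi))
  set a : ι → ℂ := fun i => ∫ x, g x * e i x ∂μ with ha
  set A : ℝ := ∑ i ∈ Z, ‖a i‖ ^ q with hA
  set Φ : ℝ := ∫ x, ‖g x‖ ^ p ∂μ with hΦ
  have hA0 : 0 ≤ A := Finset.sum_nonneg fun i _ => by positivity
  have hΦ0 : 0 ≤ Φ := integral_nonneg fun x => by positivity
  set θ : ℝ := 2 * (1 - 1 / p) with hθ
  have hip : 1 / p < 1 := by rw [div_lt_one hp0]; exact hp1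
  have hip2 : 1 / 2 ≤ 1 / p := one_div_le_one_div_of_le hp0 hp2
  have hθ0 : 0 < θ := by rw [hθ]; linarith
  have hθ1 : θ ≤ 1 := by rw [hθ]; linarith
  have hθp : p * (1 - θ / 2) = 1 := by rw [hθ]; field_simp; ring
  have hcon : 1 / p + 1 / q = 1 := by
    have := hpq.inv_add_inv_eq_one
    simpa [one_div] using this
  have hqp : q / p = q - 1 := by
    have : q * (1 / p + 1 / q) = q := by rw [hcon, mul_one]
    field_simp at this ⊢
    linarith
  have hθq : q * (1 - θ / 2) = q - 1 := by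
    rw [← hqp, hθ]; field_simp; ring
  set F : ℂ → ℂ := fun z => ∑ i ∈ Z, pw q ((starRingEnd ℂ) (a i)) z * ∫ x, pw p (g x) z * e i x ∂μ with hF
  -- value at θ
  have hFθ : F (θ : ℂ) = (A : ℂ) := by
    rw [hF, hA]
    simp only
    rw [Complex.ofReal_sum]
    refine Finset.sum_congr rfl fun i _ => ?_
    have : ∫ x, pw p (g x) (θ : ℂ) * e i x ∂μ = a i := by
      rw [ha]
      simp only
      congr 1
      funext x
      rw [pw_theta hθp]
    rw [this, pw_dual hθq hq0.ne']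
  -- differentiability
  have hFd : Differentiable ℂ F := by
    have : F = fun z => ∑ i ∈ Z, pw q ((starRingEnd ℂ) (a i)) z *
        ∑ y ∈ g.range, pw p y z * ∫ x in g ⁻¹' {y}, e i x ∂μ := by
      funext z
      rw [hF]
      simp only
      refine Finset.sum_congr rfl fun i hi => ?_
      rw [simple_int g (fun y => pw p y z) (hei i hi)]
    rw [this]
    have h1 : ∀ i, Differentiable ℂ (pw q ((starRingEnd ℂ) (a i))) := fun i => pw_diff _ _
    have h2 : ∀ y, Differentiable ℂ (pw p y) := fun y => pw_diff _ _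
    fun_prop
  -- positivity of the exponents
  have hpos : ∀ {r : ℝ} {z : ℂ}, 0 < r → z.re ≤ 1 → 0 < r * (1 - z.re / 2) := fun hr hz =>
    mul_pos hr (by linarith)
  have hIbound : ∀ i ∈ Z, ∀ z : ℂ, ‖∫ x, pw p (g x) z * e i x ∂μ‖ ≤ ∫ x, ‖pw p (g x) z‖ ∂μ := by
    intro i hi z
    refine (norm_integral_le_integral_norm _).trans ?_
    refine integral_mono_of_nonneg (Eventually.of_forall fun x => norm_nonneg _)
      (simple_comp_int g fun y => ‖pw p y z‖) (Eventually.of_forall fun x => ?_)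
    simp only
    rw [norm_mul]
    exact mul_le_of_le_one_right (norm_nonneg _) (he1 i hi x)
  -- the line Re z = 0
  have hl0 : ∀ z ∈ re ⁻¹' ({0} : Set ℝ), ‖F z‖ ≤ A * Φ := by
    intro z hz
    have hz0 : z.re = 0 := by simpa using hz
    rw [hF, hA, Finset.sum_mul]
    refine (norm_sum_le _ _).trans (Finset.sum_le_sum fun i hi => ?_)
    rw [norm_mul, norm_pw _ (hpos hq0 (by linarith)), RCLike.norm_conj, hz0, zero_div, sub_zero, mul_one]
    refine mul_le_mul_of_nonneg_left ((hIbound i hi z).trans (le_of_eq ?_)) (by positivity)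
    rw [hΦ]
    congr 1
    funext x
    rw [norm_pw _ (hpos hp0 (by linarith)), hz0, zero_div, sub_zero, mul_one]
  -- the line Re z = 1
  have hl1 : ∀ z ∈ re ⁻¹' ({1} : Set ℝ), ‖F z‖ ≤ N * Real.sqrt (A * Φ) := by
    intro z hz
    have hz1 : z.re = 1 := by simpa using hz
    have hB' := hB (fun x => pw p (g x) z) ((g.map fun y => pw p y z).measurable)
      ⟨∑ y ∈ g.range, ‖pw p y z‖, fun x => Finset.single_le_sum (f := fun y => ‖pw p y z‖)
        (fun y _ => norm_nonneg _) (g.mem_range_self x)⟩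
    have e1 : ∀ x, ‖pw p (g x) z‖ ^ 2 = ‖g x‖ ^ p := by
      intro x
      rw [norm_pw _ (hpos hp0 (by linarith)), hz1, ← Real.rpow_natCast, ← Real.rpow_mul (norm_nonneg _)]
      congr 1
      push_cast; ring
    simp_rw [e1] at hB'
    rw [← hΦ] at hB'
    have e2 : ∀ i, ‖pw q ((starRingEnd ℂ) (a i)) z‖ ^ 2 = ‖a i‖ ^ q := by
      intro i
      rw [norm_pw _ (hpos hq0 (by linarith)), hz1, RCLike.norm_conj, ← Real.rpow_natCast,
        ← Real.rpow_mul (norm_nonneg _)]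
      congr 1
      push_cast; ring
    have h3 : ‖F z‖ ≤ ∑ i ∈ Z, ‖pw q ((starRingEnd ℂ) (a i)) z‖ * ‖∫ x, pw p (g x) z * e i x ∂μ‖ := by
      rw [hF]
      refine (norm_sum_le _ _).trans (le_of_eq (Finset.sum_congr rfl fun i _ => norm_mul _ _))
    have h4 := Finset.sum_mul_sq_le_sq_mul_sq Z (fun i => ‖pw q ((starRingEnd ℂ) (a i)) z‖)
      (fun i => ‖∫ x, pw p (g x) z * e i x ∂μ‖)
    simp only [e2] at h4
    rw [← hA] at h4
    have h5 : ‖F z‖ ^ 2 ≤ N ^ 2 * (A * Φ) := by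
      have h6 : ‖F z‖ ^ 2 ≤ (∑ i ∈ Z, ‖pw q ((starRingEnd ℂ) (a i)) z‖ * ‖∫ x, pw p (g x) z * e i x ∂μ‖) ^ 2 :=
        pow_le_pow_left₀ (norm_nonneg _) h3 2
      calc ‖F z‖ ^ 2 ≤ A * ∑ i ∈ Z, ‖∫ x, pw p (g x) z * e i x ∂μ‖ ^ 2 := h6.trans h4
        _ ≤ A * (N ^ 2 * Φ) := mul_le_mul_of_nonneg_left hB' hA0
        _ = _ := by ring
    refine le_of_sq_le_sq ?_ (by positivity)
    rw [mul_pow, Real.sq_sqrt (by positivity)]
    exact h5
  -- boundedness on the strip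
  have hbd : BddAbove ((norm ∘ F) '' HadamardThreeLines.verticalClosedStrip 0 1) := by
    refine ⟨∑ i ∈ Z, (1 + ‖a i‖) ^ q * ∫ x, (1 + ‖g x‖) ^ p ∂μ, ?_⟩
    rintro _ ⟨z, hz, rfl⟩
    have hz0 : 0 ≤ z.re := hz.1
    have hz1 : z.re ≤ 1 := hz.2
    simp only [Function.comp]
    rw [hF]
    refine (norm_sum_le _ _).trans (Finset.sum_le_sum fun i hi => ?_)
    rw [norm_mul]
    refine mul_le_mul ?_ ?_ (norm_nonneg _) (by positivity)
    · rw [norm_pw _ (hpos hq0 hz1), RCLike.norm_conj]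
      exact rpow_le_one_add (norm_nonneg _) (hpos hq0 hz1).le (by nlinarith)
    · refine (hIbound i hi z).trans (integral_mono (simple_comp_int g fun y => ‖pw p y z‖)
        (simple_comp_int g fun y => (1 + ‖y‖) ^ p) fun x => ?_)
      simp only
      rw [norm_pw _ (hpos hp0 hz1)]
      exact rpow_le_one_add (norm_nonneg _) (hpos hp0 hz1).le (by nlinarith)
  have hmem : (θ : ℂ) ∈ HadamardThreeLines.verticalClosedStrip 0 1 := by
    constructor <;> simp <;> linarith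
  have key := HadamardThreeLines.norm_le_interp_of_mem_verticalClosedStrip' (f := F) zero_lt_one hmem
    hFd.diffContOnCl hbd hl0 hl1
  rw [hFθ, Complex.norm_real, Real.norm_of_nonneg hA0, Complex.ofReal_re, sub_zero, sub_zero, div_one] at key
  -- conclusion
  rcases hA0.eq_or_lt with hA00 | hA00
  · rw [← hA00]; positivity
  set X : ℝ := A * Φ with hX
  have hX0 : 0 ≤ X := by positivity
  rcases hX0.eq_or_lt with hX00 | hX00
  · rw [← hX00, Real.sqrt_zero, mul_zero, Real.zero_rpow hθ0.ne', mul_zero] at key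
    exact absurd key (not_le.2 hA00)
  have k1 : X ^ (1 - θ) * (N * Real.sqrt X) ^ θ = N ^ θ * X ^ (1 / p) := by
    rw [Real.mul_rpow hN (Real.sqrt_nonneg _), Real.sqrt_eq_rpow, ← Real.rpow_mul hX0]
    have : X ^ (1 - θ) * (N ^ θ * X ^ (1 / 2 * θ)) = N ^ θ * (X ^ (1 - θ) * X ^ (1 / 2 * θ)) := by ring
    rw [this, ← Real.rpow_add hX00]
    congr 2
    rw [hθ]; ring
  rw [k1] at key
  have k2 : A ^ q ≤ (N ^ θ * X ^ (1 / p)) ^ q := Real.rpow_le_rpow hA0 key hq0.le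
  have k3 : (N ^ θ * X ^ (1 / p)) ^ q = N ^ 2 * (A ^ (q - 1) * Φ ^ (q / p)) := by
    rw [Real.mul_rpow (by positivity) (by positivity), ← Real.rpow_mul hN, ← Real.rpow_mul hX0]
    have e1 : θ * q = 2 := by
      have : θ = 2 * (1 / q) := by rw [hθ]; linarith
      rw [this]; field_simp
    have e2 : 1 / p * q = q / p := by ring
    rw [e1, e2, hX, Real.mul_rpow hA0 hΦ0, hqp]
    norm_num
  rw [k3] at k2
  have k4 : A ^ q = A ^ (q - 1) * A := by
    nth_rewrite 3 [← Real.rpow_one A]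
    rw [← Real.rpow_add hA00]
    congr 1; ring
  rw [k4] at k2
  have k5 : 0 < A ^ (q - 1) := by positivity
  have k6 : A ^ (q - 1) * A ≤ A ^ (q - 1) * (N ^ 2 * Φ ^ (q / p)) := by
    refine k2.trans (le_of_eq ?_); ring
  exact le_of_mul_le_mul_left k6 k5

/-- **The inequality of Hausdorff and Young** for bounded measurable functions. -/
theorem hy {μ : Measure α} [IsFiniteMeasure μ] {ι : Type*} (Z : Finset ι) (e : ι → α → ℂ)
    (he : ∀ i ∈ Z, Measurable (e i)) (he1 : ∀ i ∈ Z, ∀ x, ‖e i x‖ ≤ 1) {N : ℝ} (hN : 0 ≤ N)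
    (hB : ∀ h : α → ℂ, Measurable h → (∃ C, ∀ x, ‖h x‖ ≤ C) →
      ∑ i ∈ Z, ‖∫ x, h x * e i x ∂μ‖ ^ 2 ≤ N ^ 2 * ∫ x, ‖h x‖ ^ 2 ∂μ)
    {p q : ℝ} (hpq : p.HolderConjugate q) (hp2 : p ≤ 2) {f : α → ℂ} (hf : Measurable f) {C : ℝ}
    (hfC : ∀ x, ‖f x‖ ≤ C) :
    ∑ i ∈ Z, ‖∫ x, f x * e i x ∂μ‖ ^ q ≤ N ^ 2 * (∫ x, ‖f x‖ ^ p ∂μ) ^ (q / p) := by
  have hq0 : 0 < q := hpq.symm.pos
  have hp0 : 0 < p := hpq.pos
  have hqp0 : 0 < q / p := by positivity
  set g : ℕ → SimpleFunc α ℂ := fun n => SimpleFunc.approxOn f hf univ 0 (mem_univ _) n with hg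
  have hgf : ∀ x, Tendsto (fun n => g n x) atTop (𝓝 (f x)) := fun x =>
    SimpleFunc.tendsto_approxOn hf (mem_univ _) (by simp)
  have hgb : ∀ n x, ‖g n x‖ ≤ 2 * C := by
    intro n x
    have := SimpleFunc.norm_approxOn_zero_le hf (mem_univ (0:ℂ)) x n
    have h2 := hfC x
    rw [hg]
    simp only
    linarith
  have h1 : ∀ n, ∑ i ∈ Z, ‖∫ x, g n x * e i x ∂μ‖ ^ q ≤ N ^ 2 * (∫ x, ‖g n x‖ ^ p ∂μ) ^ (q / p) := fun n =>
    hy_simple Z e he he1 hN hB hpq hp2 (g n)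
  have h2 : ∀ i ∈ Z, Tendsto (fun n => ∫ x, g n x * e i x ∂μ) atTop (𝓝 (∫ x, f x * e i x ∂μ)) := by
    intro i hi
    refine tendsto_integral_of_dominated_convergence (fun _ => 2 * C) ?_ (integrable_const _) ?_ ?_
    · intro n
      exact ((g n).measurable.mul (he i hi)).aestronglyMeasurable
    · intro n
      refine Eventually.of_forall fun x => ?_
      rw [norm_mul]
      exact (mul_le_of_le_one_right (norm_nonneg _) (he1 i hi x)).trans (hgb n x)
    · exact Eventually.of_forall fun x => (hgf x).mul_const _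
  have h3 : Tendsto (fun n => ∫ x, ‖g n x‖ ^ p ∂μ) atTop (𝓝 (∫ x, ‖f x‖ ^ p ∂μ)) := by
    refine tendsto_integral_of_dominated_convergence (fun _ => (2 * C) ^ p) ?_ (integrable_const _) ?_ ?_
    · intro n
      exact ((g n).measurable.norm.pow_const p).aestronglyMeasurable
    · intro n
      refine Eventually.of_forall fun x => ?_
      rw [Real.norm_of_nonneg (by positivity)]
      exact Real.rpow_le_rpow (norm_nonneg _) (hgb n x) hp0.le
    · exact Eventually.of_forall fun x => ((hgf x).norm).rpow_const (Or.inr hp0.le)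
  have h4 : Tendsto (fun n => ∑ i ∈ Z, ‖∫ x, g n x * e i x ∂μ‖ ^ q) atTop
      (𝓝 (∑ i ∈ Z, ‖∫ x, f x * e i x ∂μ‖ ^ q)) :=
    tendsto_finsetSum _ fun i hi => ((h2 i hi).norm).rpow_const (Or.inr hq0.le)
  have h5 : Tendsto (fun n => N ^ 2 * (∫ x, ‖g n x‖ ^ p ∂μ) ^ (q / p)) atTop
      (𝓝 (N ^ 2 * (∫ x, ‖f x‖ ^ p ∂μ) ^ (q / p))) :=
    (h3.rpow_const (Or.inr hqp0.le)).const_mul _
  exact le_of_tendsto_of_tendsto' h4 h5 h1

end

end Pool.Agent.E8helper62.LP
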