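import Pool.Agent.H295R2.WM8

/-!
# A bound for the mean of `|M(u)| / √u` along a sequence
-/

set_option autoImplicit false

open MeasureTheory Filter Topology Set Pool.Agent.H295R2

namespace Pool.Agent.E8helper62.LP

noncomputable section

/-- `f(s) = M(e^s) e^{-s/2}` -/
def ff (s : ℝ) : ℝ := Mx (Real.exp s) * Real.exp (-(s / 2))

/-- `∫_0^L |f|` -/
def A1 (L : ℝ) : ℝ := ∫ s in Ioc 0 L, |ff s|

lemma ff_meas : Measurable ff := by
  unfold ff
  exact (Mx_meas.comp Real.measurable_exp).mul (Continuous.measurable (by fun_prop))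

lemma abs_ff (s : ℝ) : |ff s| = |Mx (Real.exp s)| * Real.exp (-(s / 2)) := by
  unfold ff
  rw [abs_mul, abs_of_pos (Real.exp_pos _)]

lemma abs_ff_le {s L : ℝ} (hs : s ≤ L) : |ff s| ≤ Real.exp (L / 2) := by
  rw [abs_ff]
  have h1 := abs_Mx_le (Real.exp_pos s).le
  calc |Mx (Real.exp s)| * Real.exp (-(s / 2)) ≤ Real.exp s * Real.exp (-(s / 2)) := by gcongr
    _ = Real.exp (s / 2) := by rw [← Real.exp_add]; ring_nf
    _ ≤ Real.exp (L / 2) := Real.exp_le_exp.2 (by linarith)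

lemma ff_int (L : ℝ) : IntegrableOn (fun s => |ff s|) (Ioc 0 L) :=
  integrableOn_of_le (B := Real.exp (L / 2)) (continuous_abs.measurable.comp ff_meas) fun s hs => by
    show |(|ff s|)| ≤ _
    rw [abs_abs]; exact abs_ff_le hs.2

lemma A1_nonneg (L : ℝ) : 0 ≤ A1 L := integral_nonneg fun s => abs_nonneg _

lemma A1_mono {a b : ℝ} (h : a ≤ b) : A1 a ≤ A1 b :=
  setIntegral_mono_set (ff_int b) (Eventually.of_forall fun s => abs_nonneg _)
    (Eventually.of_forall (Ioc_subset_Ioc_right h))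

lemma AL_nonneg (L : ℝ) : 0 ≤ AL L := integral_nonneg fun s => abs_nonneg _

lemma AL_mono {a b : ℝ} (h : a ≤ b) : AL a ≤ AL b :=
  setIntegral_mono_set (abs_Mx_integrable b) (Eventually.of_forall fun s => abs_nonneg _)
    (Eventually.of_forall (Ioc_subset_Ioc_right h))

/-- average of the local means -/
lemma avg {L : ℝ} : ∫ y in Ioc 0 L, Real.exp (-(y / 2)) * AL y ≤ 2 * A1 L := by
  set ν : Measure ℝ := volume.restrict (Ioc 0 L) with hν
  set G : ℝ → ℝ → ℝ := fun y s => (Iic y).indicator (fun s => |Mx (Real.exp s)|) s * Real.exp (-(y / 2)) with hG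
  have hGm : Measurable (Function.uncurry G) := by
    have h1 : Function.uncurry G = fun z : ℝ × ℝ =>
        ({z : ℝ × ℝ | z.2 ≤ z.1}.indicator (fun z : ℝ × ℝ => |Mx (Real.exp z.2)|) z) * Real.exp (-(z.1 / 2)) := by
      funext z
      rcases z with ⟨y, s⟩
      simp only [Function.uncurry, hG, indicator, mem_Iic, mem_ofPred_eq]
    rw [h1]
    refine Measurable.mul ?_ (Continuous.measurable (by fun_prop))
    exact ((continuous_abs.measurable.comp (Mx_meas.comp Real.measurable_exp)).comp measurable_snd).indicator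
      (measurableSet_le measurable_snd measurable_fst)
  have hGi : Integrable (Function.uncurry G) (ν.prod ν) := by
    refine Integrable.of_bound hGm.aestronglyMeasurable (Real.exp L) ?_
    have hae : ∀ᵐ z ∂(ν.prod ν), z ∈ Ioc 0 L ×ˢ Ioc 0 L := by
      rw [hν, Measure.prod_restrict]
      exact ae_restrict_mem (measurableSet_Ioc.prod measurableSet_Ioc)
    filter_upwards [hae] with z hz
    rcases z with ⟨y, s⟩
    rw [mem_prod] at hz
    simp only [Function.uncurry, hG]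
    rw [norm_mul, Real.norm_of_nonneg (Real.exp_pos _).le]
    have h2 : Real.exp (-(y / 2)) ≤ 1 := by
      rw [Real.exp_le_one_iff]; linarith [hz.1.1]
    have h3 : ‖(Iic y).indicator (fun s => |Mx (Real.exp s)|) s‖ ≤ Real.exp L := by
      refine (norm_indicator_le_norm_self _ _).trans ?_
      rw [Real.norm_eq_abs, abs_abs]
      exact (abs_Mx_le (Real.exp_pos s).le).trans (Real.exp_le_exp.2 hz.2.2)
    calc _ ≤ Real.exp L * 1 := mul_le_mul h3 h2 (Real.exp_pos _).le (Real.exp_pos _).le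
      _ = _ := mul_one _
  have h1 : ∫ y in Ioc 0 L, Real.exp (-(y / 2)) * AL y = ∫ y, ∫ s, G y s ∂ν ∂ν := by
    rw [hν]
    refine setIntegral_congr_fun measurableSet_Ioc fun y hy => ?_
    simp only [hG]
    rw [integral_mul_const, mul_comm, integral_indicator measurableSet_Iic, Measure.restrict_restrict measurableSet_Iic]
    congr 1
    unfold AL
    congr 2
    ext s
    simp only [mem_inter_iff, mem_Iic, mem_Ioc]
    constructor
    · rintro ⟨h1, h2⟩
      exact ⟨h2, h1, h2.trans hy.2⟩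
    · rintro ⟨h1, h2, h3⟩
      exact ⟨h2, h1⟩
  rw [h1, integral_integral_swap hGi]
  have h2 : ∀ s, ∫ y, G y s ∂ν ≤ 2 * |ff s| := by
    intro s
    have e1 : ∀ y, G y s = (Ici s).indicator (fun y => |Mx (Real.exp s)| * Real.exp (-(y / 2))) y := by
      intro y
      simp only [hG, indicator, mem_Iic, mem_Ici]
      split_ifs <;> simp
    simp_rw [e1]
    rw [integral_indicator measurableSet_Ici, Measure.restrict_restrict measurableSet_Ici, integral_const_mul]
    have e2 : ∫ y in Ici s ∩ Ioc 0 L, Real.exp (-(y / 2)) ≤ ∫ y in Ici s, Real.exp (-(y / 2)) := by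
      refine setIntegral_mono_set ?_ (Eventually.of_forall fun y => (Real.exp_pos _).le)
        (Eventually.of_forall inter_subset_left)
      rw [integrableOn_Ici_iff_integrableOn_Ioi]
      have := integrableOn_exp_mul_Ioi (a := -(1/2)) (by norm_num) s
      refine this.congr_fun (fun y _ => ?_) measurableSet_Ioi
      simp only; congr 1; ring
    have e3 : ∫ y in Ici s, Real.exp (-(y / 2)) = 2 * Real.exp (-(s / 2)) := by
      rw [integral_Ici_eq_integral_Ioi]
      have := integral_exp_mul_Ioi (a := -(1/2)) (by norm_num) s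
      have e : ∀ y : ℝ, Real.exp (-(y / 2)) = Real.exp (-(1/2) * y) := fun y => by congr 1; ring
      simp_rw [e]
      rw [this]; ring
    rw [abs_ff]
    calc |Mx (Real.exp s)| * ∫ y in Ici s ∩ Ioc 0 L, Real.exp (-(y / 2)) ≤
        |Mx (Real.exp s)| * (2 * Real.exp (-(s / 2))) := by
          apply mul_le_mul_of_nonneg_left _ (abs_nonneg _)
          rw [← e3]; exact e2
      _ = _ := by ring
  calc ∫ s, ∫ y, G y s ∂ν ∂ν ≤ ∫ s, 2 * |ff s| ∂ν :=
        integral_mono (MeasureTheory.Integrable.integral_prod_right hGi) ((ff_int L).const_mul 2) h2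
    _ = 2 * A1 L := by rw [integral_const_mul]; rfl

lemma Ee_int (L : ℝ) : IntegrableOn (fun y => Real.exp (-(y / 2)) * AL y) (Ioc 0 L) := by
  have hm : Measurable AL := (show Monotone AL from fun a b h => AL_mono h).measurable
  refine integrableOn_of_le (B := AL L) ((Continuous.measurable (by fun_prop)).mul hm) fun s hs => ?_
  show |Real.exp (-(s / 2)) * AL s| ≤ _
  rw [abs_of_nonneg (mul_nonneg (Real.exp_pos _).le (AL_nonneg _))]
  have h2 : Real.exp (-(s / 2)) ≤ 1 := by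
    rw [Real.exp_le_one_iff]; linarith [hs.1]
  calc Real.exp (-(s / 2)) * AL s ≤ 1 * AL L := mul_le_mul h2 (AL_mono hs.2) (AL_nonneg _) one_pos.le
    _ = _ := one_mul _

/-- a point near `L` with a bounded local mean -/
lemma exists_good {K L η : ℝ} (hη : 0 < η) (hη1 : η < 1) (hL : 0 < L) (h : A1 L ≤ K * L) :
    ∃ y ∈ Ioc ((1 - η) * L) L, Real.exp (-(y / 2)) * AL y ≤ 2 * K / η + 1 := by
  by_contra hcon
  push Not at hcon
  have h0 : 0 ≤ (1 - η) * L := by nlinarith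
  have h1 : ∫ y in Ioc ((1 - η) * L) L, (2 * K / η + 1) ≤ ∫ y in Ioc ((1 - η) * L) L, Real.exp (-(y / 2)) * AL y :=
    setIntegral_mono_on (integrableOn_const (by simp)) ((Ee_int L).mono_set (Ioc_subset_Ioc_left h0))
      measurableSet_Ioc fun y hy => (hcon y hy).le
  have h2 : ∫ y in Ioc ((1 - η) * L) L, Real.exp (-(y / 2)) * AL y ≤ ∫ y in Ioc 0 L, Real.exp (-(y / 2)) * AL y :=
    setIntegral_mono_set (Ee_int L) (Eventually.of_forall fun y => mul_nonneg (Real.exp_pos _).le (AL_nonneg _))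
      (Eventually.of_forall (Ioc_subset_Ioc_left h0))
  rw [setIntegral_const, Measure.real, Real.volume_Ioc, ENNReal.toReal_ofReal (by nlinarith), smul_eq_mul] at h1
  have h3 := (h1.trans h2).trans avg
  have h4 : (L - (1 - η) * L) * (2 * K / η + 1) = 2 * (K * L) + η * L := by field_simp; ring
  rw [h4] at h3
  have : 0 < η * L := by positivity
  linarith

lemma freq_good {K η : ℝ} (hη : 0 < η) (hη1 : η < 1) (h : ∃ᶠ L in atTop, A1 L ≤ K * L) :
    ∃ᶠ y in atTop, Real.exp (-(y / 2)) * AL y ≤ 2 * K / η + 1 ∧ A1 y ≤ K / (1 - η) * y := by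
  rw [frequently_atTop] at h ⊢
  intro a
  have h1η : 0 < 1 - η := by linarith
  obtain ⟨L, hL, hA⟩ := h (max 1 (a / (1 - η)))
  have hL1 : 1 ≤ L := (le_max_left _ _).trans hL
  have hL2 : a / (1 - η) ≤ L := (le_max_right _ _).trans hL
  obtain ⟨y, hy, hE⟩ := exists_good hη hη1 (by linarith) hA
  have hK : 0 ≤ K := by
    have := (A1_nonneg L).trans hA
    by_contra hc
    push Not at hc
    nlinarith
  refine ⟨y, ?_, hE, ?_⟩
  · rw [div_le_iff₀ h1η] at hL2
    linarith [hy.1]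
  · refine (A1_mono hy.2).trans (hA.trans ?_)
    rw [div_mul_eq_mul_div, le_div_iff₀ h1η]
    have := hy.1
    nlinarith

lemma norm_PP_le {ρ : ℂ} (h : ρ.re = 1 / 2) (L : ℝ) : ‖PP ρ L‖ ≤ A1 L := by
  unfold PP A1
  refine (norm_integral_le_integral_norm _).trans (le_of_eq ?_)
  refine integral_congr_ae (Eventually.of_forall fun s => ?_)
  simp only
  rw [norm_mf, abs_ff, h]
  congr 2; ring

/-- no zeros to the right of the critical line -/
lemma re_le_half {K : ℝ} (h : ∃ᶠ L in atTop, A1 L ≤ K * L) {ρ : ℂ} (hz : riemannZeta ρ = 0) (h0 : 0 < ρ.re)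
    (h1 : ρ.re < 1) : ρ.re ≤ 1 / 2 := by
  by_contra hcon
  push Not at hcon
  have hg := freq_good (η := 1 / 2) (by norm_num) (by norm_num) h
  obtain ⟨t₀, ht⟩ := Cv_lower (by linarith : 1 / 4 < ρ.re) h1
  obtain ⟨K', hK', hC⟩ := Cv_le_AL h0 h1 hz
  have hc := norm_pos_iff.2 (c0_ne h0 h1)
  set c : ℝ := 2 * K / (1 / 2) + 1 with hcdef
  have hlim : Tendsto (fun y : ℝ => K' * |c| * Real.exp (-((ρ.re - 1 / 2) * y))) atTop (𝓝 (K' * |c| * 0)) := by
    refine Tendsto.const_mul _ (Real.tendsto_exp_neg_atTop_nhds_zero.comp ?_)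
    exact Tendsto.const_mul_atTop (by linarith) tendsto_id
  rw [mul_zero] at hlim
  have hev := hlim.eventually (gt_mem_nhds (half_pos hc))
  obtain ⟨y, ⟨hE, -⟩, h2, h3⟩ := (hg.and_eventually (hev.and (eventually_ge_atTop t₀))).exists
  have h4 := (ht y h3).trans (hC y)
  have h5 : K' * Real.exp (-(ρ.re * y)) * AL y =
      K' * Real.exp (-((ρ.re - 1 / 2) * y)) * (Real.exp (-(y / 2)) * AL y) := by
    have : Real.exp (-(ρ.re * y)) = Real.exp (-((ρ.re - 1 / 2) * y)) * Real.exp (-(y / 2)) := by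
      rw [← Real.exp_add]; congr 1; ring
    rw [this]; ring
  rw [h5] at h4
  have h6 : K' * Real.exp (-((ρ.re - 1 / 2) * y)) * (Real.exp (-(y / 2)) * AL y) ≤
      K' * |c| * Real.exp (-((ρ.re - 1 / 2) * y)) := by
    calc _ ≤ K' * Real.exp (-((ρ.re - 1 / 2) * y)) * |c| :=
          mul_le_mul_of_nonneg_left (hE.trans (le_abs_self _)) (by positivity)
      _ = _ := by ring
  linarith

lemma on_line {K : ℝ} (h : ∃ᶠ L in atTop, A1 L ≤ K * L) {ρ : ℂ} (hz : riemannZeta ρ = 0) (h0 : 0 < ρ.re)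
    (h1 : ρ.re < 1) : ρ.re = 1 / 2 := by
  refine le_antisymm (re_le_half h hz h0 h1) ?_
  have h2 : riemannZeta (1 - ρ) = 0 ∧ 0 < (1 - ρ).re ∧ (1 - ρ).re < 1 := by
    refine ⟨?_, by simp; exact h1, by simp; exact h0⟩
    rw [riemannZeta_one_sub]
    · rw [hz, mul_zero]
    · intro n hn
      rw [hn] at h0
      simp at h0
      linarith [(Nat.cast_nonneg n : (0:ℝ) ≤ n)]
    · rintro rfl
      simp at h1
  have := re_le_half h h2.1 h2.2.1 h2.2.2
  simp at this
  linarith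

lemma simple_zero {K : ℝ} (h : ∃ᶠ L in atTop, A1 L ≤ K * L) {ρ : ℂ} (hρ : ρ.re = 1 / 2) (hz : riemannZeta ρ = 0) :
    deriv riemannZeta ρ ≠ 0 := by
  intro hd
  have hg := freq_good (η := 1 / 2) (by norm_num) (by norm_num) h
  have hm : ∀ j < 1, mom ρ j = 0 := by
    intro j hj
    have : j = 0 := by omega
    rw [this, mom_zeroth (by linarith) (by linarith) hz, hd, mul_zero]
  obtain ⟨C, hC, hP⟩ := PPgen (p := 1) (by linarith : 1 / 4 < ρ.re) (by linarith) hz hm
  have hc := norm_pos_iff.2 (c0_ne (by linarith : 0 < ρ.re) (by linarith))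
  set c : ℝ := 2 * K / (1 / 2) + 1 with hcdef
  set B : ℝ := ‖mom ρ 1‖ * |K / (1 - 1 / 2)| + C + C * |c| with hB
  have hev : ∀ᶠ y : ℝ in atTop, B < ‖c0 ρ‖ / 2 * y := by
    have : Tendsto (fun y : ℝ => ‖c0 ρ‖ / 2 * y) atTop atTop := Tendsto.const_mul_atTop (half_pos hc) tendsto_id
    exact this.eventually_gt_atTop B
  obtain ⟨y, ⟨hE, hA⟩, h2, h3⟩ := (hg.and_eventually (hev.and (eventually_ge_atTop 1))).exists
  have h4 := hP y (by linarith)
  have h5 : ‖c0 ρ * ((y ^ (1 + 1) / ((1 : ℕ) + 1) : ℝ) : ℂ)‖ = ‖c0 ρ‖ / 2 * y ^ 2 := by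
    rw [norm_mul, Complex.norm_real, Real.norm_of_nonneg (by positivity)]
    push_cast; ring
  have h6 : ‖(-1) ^ 1 * mom ρ 1 * PP ρ y‖ ≤ ‖mom ρ 1‖ * (|K / (1 - 1 / 2)| * y) := by
    rw [norm_mul, norm_mul]
    simp only [pow_one, norm_neg, norm_one, one_mul]
    refine mul_le_mul_of_nonneg_left ((norm_PP_le hρ y).trans (hA.trans ?_)) (norm_nonneg _)
    exact mul_le_mul_of_nonneg_right (le_abs_self _) (by linarith)
  have h7 : ‖c0 ρ * ((y ^ (1 + 1) / ((1 : ℕ) + 1) : ℝ) : ℂ)‖ ≤ ‖(-1) ^ 1 * mom ρ 1 * PP ρ y‖ +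
      ‖(-1) ^ 1 * mom ρ 1 * PP ρ y - c0 ρ * ((y ^ (1 + 1) / ((1 : ℕ) + 1) : ℝ) : ℂ)‖ := by
    have := norm_sub_le ((-1) ^ 1 * mom ρ 1 * PP ρ y)
      ((-1) ^ 1 * mom ρ 1 * PP ρ y - c0 ρ * ((y ^ (1 + 1) / ((1 : ℕ) + 1) : ℝ) : ℂ))
    rwa [sub_sub_cancel] at this
  rw [h5] at h7
  have h8 : C * (y ^ 1 + Real.exp (-(ρ.re * y)) * AL y) ≤ C * y + C * |c| := by
    rw [hρ, mul_add, pow_one]
    have e : Real.exp (-(1 / 2 * y)) = Real.exp (-(y / 2)) := by congr 1; ring
    rw [e]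
    have := mul_le_mul_of_nonneg_left (hE.trans (le_abs_self c)) hC.le
    linarith
  have h9 := h7.trans (add_le_add h6 (h4.trans h8))
  have h10 : C * |c| ≤ C * |c| * y := by
    have : 0 ≤ C * |c| := by positivity
    nlinarith
  have h11 : ‖c0 ρ‖ / 2 * y ^ 2 ≤ B * y := by rw [hB]; nlinarith
  nlinarith

/-- the Fourier coefficients, with an error term -/
lemma PP_approx {ρ : ℂ} (hρ : ρ.re = 1 / 2) (hz : riemannZeta ρ = 0) (hd : deriv riemannZeta ρ ≠ 0) :
    ∃ C : ℝ, 0 < C ∧ ∀ L : ℝ, 0 ≤ L → ‖PP ρ L - ww ρ * (L : ℂ)‖ ≤ C * (1 + Real.exp (-(L / 2)) * AL L) := by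
  obtain ⟨C, hC, hP⟩ := PPgen (p := 0) (by linarith : 1 / 4 < ρ.re) (by linarith) hz (by intro j hj; omega)
  have hd0 := norm_pos_iff.2 hd
  have hq := two_pow_ne (by linarith : ρ.re < 1)
  have hq0 : 0 < ‖(1:ℂ) - (2:ℂ) ^ (1 - ρ)‖ := norm_pos_iff.2 hq
  have hρ0 : ρ ≠ 0 := by rintro rfl; norm_num at hρ
  refine ⟨C / (‖(1:ℂ) - (2:ℂ) ^ (1 - ρ)‖ * ‖deriv riemannZeta ρ‖), by positivity, fun L hL => ?_⟩
  have b1 := hP L hL
  rw [hρ] at b1
  simp only [pow_zero, one_mul, zero_add, pow_one, Nat.cast_zero, div_one] at b1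
  have hmom := mom_zeroth (by linarith : 0 < ρ.re) (by linarith) hz
  have e1 : (1 - (2:ℂ) ^ (1 - ρ)) * deriv riemannZeta ρ * (PP ρ L - ww ρ * (L : ℂ)) =
      mom ρ 0 * PP ρ L - c0 ρ * (L : ℂ) := by
    rw [hmom]; unfold c0 ww; field_simp
  have e2 : ‖(1 - (2:ℂ) ^ (1 - ρ)) * deriv riemannZeta ρ * (PP ρ L - ww ρ * (L : ℂ))‖ ≤
      C * (1 + Real.exp (-(L / 2)) * AL L) := by
    rw [e1]
    refine b1.trans (le_of_eq ?_)
    congr 4; ring
  rw [norm_mul, norm_mul] at e2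
  rw [div_mul_eq_mul_div, le_div_iff₀ (by positivity)]
  linarith

/-- the bound for a single zero -/
lemma ww_le {K : ℝ} (h : ∃ᶠ L in atTop, A1 L ≤ K * L) {ρ : ℂ} (hρ : ρ.re = 1 / 2) (hz : riemannZeta ρ = 0) :
    ‖ww ρ‖ ≤ K := by
  have hd := simple_zero h hρ hz
  obtain ⟨C, hC, hP⟩ := PP_approx hρ hz hd
  have hη : ∀ η : ℝ, 0 < η → η < 1 → ‖ww ρ‖ ≤ K / (1 - η) := by
    intro η hη hη1
    have hg := freq_good hη hη1 h
    refine le_of_forall_pos_le_add fun ε hε => ?_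
    set c : ℝ := 2 * K / η + 1 with hcdef
    have hev : ∀ᶠ y : ℝ in atTop, C * (1 + |c|) < ε * y := by
      have : Tendsto (fun y : ℝ => ε * y) atTop atTop := Tendsto.const_mul_atTop hε tendsto_id
      exact this.eventually_gt_atTop _
    obtain ⟨y, ⟨hE, hA⟩, h2, h3⟩ := (hg.and_eventually (hev.and (eventually_ge_atTop 1))).exists
    have h4 := hP y (by linarith)
    have h5 : C * (1 + Real.exp (-(y / 2)) * AL y) ≤ C * (1 + |c|) := by
      have := hE.trans (le_abs_self c)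
      gcongr
    have h6 : ‖ww ρ‖ * y ≤ ‖PP ρ y‖ + ‖PP ρ y - ww ρ * (y : ℂ)‖ := by
      have e : ‖ww ρ‖ * y = ‖ww ρ * (y : ℂ)‖ := by
        rw [norm_mul, Complex.norm_real, Real.norm_of_nonneg (by linarith)]
      rw [e]
      have := norm_sub_le (PP ρ y) (PP ρ y - ww ρ * (y : ℂ))
      rwa [sub_sub_cancel] at this
    have h7 := norm_PP_le hρ y
    have h8 : ‖ww ρ‖ * y ≤ (K / (1 - η) + ε) * y := by nlinarith
    exact le_of_mul_le_mul_right h8 (by linarith)
  have hlim : Tendsto (fun η : ℝ => K / (1 - η)) (𝓝[>] 0) (𝓝 (K / (1 - 0))) := by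
    have : ContinuousAt (fun η : ℝ => K / (1 - η)) 0 := by
      refine ContinuousAt.div continuousAt_const (by fun_prop) (by norm_num)
    exact this.tendsto.mono_left nhdsWithin_le_nhds
  rw [sub_zero, div_one] at hlim
  refine ge_of_tendsto hlim ?_
  filter_upwards [Ioo_mem_nhdsGT (show (0:ℝ) < 1 by norm_num)] with η hη'
  exact hη η hη'.1 hη'.2

end

end Pool.Agent.E8helper62.LP
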