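import Pool.Agent.E8helper62.LP.L1
import Pool.Agent.E8helper62.LP.HY

/-!
# A bound for the mean of `(|M(u)| / √u) ^ p` along a sequence, `1 < p ≤ 2`
-/

set_option autoImplicit false

open MeasureTheory Filter Topology Set Pool.Agent.H295R2

namespace Pool.Agent.E8helper62.LP

noncomputable section

/-- `∫_0^L |f|^p` -/
def Ap (p L : ℝ) : ℝ := ∫ s in Ioc 0 L, |ff s| ^ p

lemma Ap_nonneg (p L : ℝ) : 0 ≤ Ap p L := integral_nonneg fun s => by positivity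

lemma ff_memLp (p : ENNReal) (L : ℝ) : MemLp ff p (volume.restrict (Ioc 0 L)) := by
  refine MemLp.of_bound ff_meas.aestronglyMeasurable (Real.exp (L / 2)) ?_
  exact (ae_restrict_mem measurableSet_Ioc).mono fun s hs => abs_ff_le hs.2

/-- Hölder against a function -/
lemma holder_g {p q : ℝ} (hpq : p.HolderConjugate q) {L : ℝ} {g : ℝ → ℝ} (hg : Continuous g) :
    ∫ s in Ioc 0 L, |ff s| * |g s| ≤ Ap p L ^ (1 / p) * (∫ s in Ioc 0 L, |g s| ^ q) ^ (1 / q) := by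
  have hgm : MemLp g (ENNReal.ofReal q) (volume.restrict (Ioc 0 L)) := by
    obtain ⟨C, hC⟩ := (isCompact_Icc (a := (0:ℝ)) (b := L)).exists_bound_of_continuousOn hg.continuousOn
    refine MemLp.of_bound hg.aestronglyMeasurable C ?_
    exact (ae_restrict_mem measurableSet_Ioc).mono fun s hs => hC s (Ioc_subset_Icc_self hs)
  have := integral_mul_norm_le_Lp_mul_Lq (μ := volume.restrict (Ioc 0 L)) hpq (ff_memLp _ L) hgm
  unfold Ap
  simpa only [Real.norm_eq_abs] using this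

lemma A1_le {p q : ℝ} (hpq : p.HolderConjugate q) {L K : ℝ} (hL : 0 ≤ L) (hK : 0 ≤ K) (h : Ap p L ≤ K ^ p * L) :
    A1 L ≤ K * L := by
  have h1 := holder_g hpq (L := L) (g := fun _ => (1:ℝ)) continuous_const
  simp only [abs_one, mul_one, Real.one_rpow] at h1
  rw [setIntegral_const, Measure.real, Real.volume_Ioc, sub_zero, ENNReal.toReal_ofReal hL, smul_eq_mul, mul_one] at h1
  have hp0 := hpq.pos
  have h2 : Ap p L ^ (1 / p) ≤ K * L ^ (1 / p) := by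
    calc Ap p L ^ (1 / p) ≤ (K ^ p * L) ^ (1 / p) := Real.rpow_le_rpow (Ap_nonneg p L) h (by positivity)
      _ = K * L ^ (1 / p) := by
        rw [Real.mul_rpow (by positivity) hL, ← Real.rpow_mul hK, mul_one_div_cancel hp0.ne', Real.rpow_one]
  have hcon : 1 / p + 1 / q = 1 := by
    have := hpq.inv_add_inv_eq_one
    simpa [one_div] using this
  calc A1 L ≤ Ap p L ^ (1 / p) * L ^ (1 / q) := h1
    _ ≤ K * L ^ (1 / p) * L ^ (1 / q) := mul_le_mul_of_nonneg_right h2 (by positivity)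
    _ = K * (L ^ (1 / p) * L ^ (1 / q)) := by ring
    _ = K * L := by
      rcases hL.eq_or_lt with h0 | h0
      · rw [← h0, Real.zero_rpow (by positivity), zero_mul]
      · rw [← Real.rpow_add h0, hcon, Real.rpow_one]

/-- the local mean is small -/
lemma Ee_le {p q : ℝ} (hpq : p.HolderConjugate q) {L K : ℝ} (hL : 0 ≤ L) (hK : 0 ≤ K) (h : Ap p L ≤ K ^ p * L) :
    Real.exp (-(L / 2)) * AL L ≤ 2 * K * L ^ (1 / p) := by
  have hp0 := hpq.pos
  have hq0 := hpq.symm.pos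
  have hq1 : 1 ≤ q := hpq.symm.lt.le
  have h1 := holder_g hpq (L := L) (g := fun s => Real.exp (-((L - s) / 2))) (by fun_prop)
  have e1 : ∫ s in Ioc 0 L, |ff s| * |Real.exp (-((L - s) / 2))| = Real.exp (-(L / 2)) * AL L := by
    unfold AL
    rw [← integral_const_mul]
    refine integral_congr_ae (Eventually.of_forall fun s => ?_)
    simp only
    rw [abs_ff, abs_of_pos (Real.exp_pos _), mul_assoc, ← Real.exp_add, mul_comm]
    congr 2; ring
  rw [e1] at h1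
  have h2 : ∫ s in Ioc 0 L, |Real.exp (-((L - s) / 2))| ^ q ≤ 2 := by
    have h3 : ∫ s in Ioc 0 L, |Real.exp (-((L - s) / 2))| ^ q ≤ ∫ s in Ioc 0 L, Real.exp (-(L / 2)) * Real.exp (1 / 2 * s) := by
      refine setIntegral_mono_on ?_ ?_ measurableSet_Ioc fun s hs => ?_
      · refine (Continuous.integrableOn_Icc ?_).mono_set Ioc_subset_Icc_self
        exact (by fun_prop : Continuous fun s : ℝ => |Real.exp (-((L - s) / 2))|).rpow_const fun _ => Or.inr hq0.le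
      · exact (Continuous.integrableOn_Icc (by fun_prop)).mono_set Ioc_subset_Icc_self
      · rw [abs_of_pos (Real.exp_pos _)]
        have h4 : Real.exp (-((L - s) / 2)) ≤ 1 := by
          rw [Real.exp_le_one_iff]; linarith [hs.2]
        calc Real.exp (-((L - s) / 2)) ^ q ≤ Real.exp (-((L - s) / 2)) ^ (1:ℝ) :=
              Real.rpow_le_rpow_of_exponent_ge (Real.exp_pos _) h4 hq1
          _ = _ := by rw [Real.rpow_one, ← Real.exp_add]; congr 1; ring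
    refine h3.trans ?_
    rw [integral_const_mul, ← intervalIntegral.integral_of_le hL]
    have h5 : ∫ s in (0:ℝ)..L, Real.exp (1 / 2 * s) = 2 * (Real.exp (1 / 2 * L) - 1) := by
      have := intervalIntegral.integral_comp_mul_left (a := 0) (b := L) (fun s => Real.exp s) (c := (1/2 : ℝ)) (by norm_num)
      rw [this, integral_exp]
      simp
    rw [h5]
    have h6 : Real.exp (-(L / 2)) * Real.exp (1 / 2 * L) = 1 := by
      rw [← Real.exp_add]; simp; ring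
    have := Real.exp_pos (-(L / 2))
    nlinarith
  have h3 : Ap p L ^ (1 / p) ≤ K * L ^ (1 / p) := by
    calc Ap p L ^ (1 / p) ≤ (K ^ p * L) ^ (1 / p) := Real.rpow_le_rpow (Ap_nonneg p L) h (by positivity)
      _ = K * L ^ (1 / p) := by
        rw [Real.mul_rpow (by positivity) hL, ← Real.rpow_mul hK, mul_one_div_cancel hp0.ne', Real.rpow_one]
  have h4 : (∫ s in Ioc 0 L, |Real.exp (-((L - s) / 2))| ^ q) ^ (1 / q) ≤ 2 := by
    calc _ ≤ (2:ℝ) ^ (1 / q) := Real.rpow_le_rpow (integral_nonneg fun s => by positivity) h2 (by positivity)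
      _ ≤ (2:ℝ) ^ (1:ℝ) := Real.rpow_le_rpow_of_exponent_le (by norm_num) (by rw [div_le_one hq0]; exact hq1)
      _ = 2 := Real.rpow_one _
  calc _ ≤ Ap p L ^ (1 / p) * (∫ s in Ioc 0 L, |Real.exp (-((L - s) / 2))| ^ q) ^ (1 / q) := h1
    _ ≤ (K * L ^ (1 / p)) * 2 := mul_le_mul h3 h4 (by positivity) (by positivity)
    _ = _ := by ring

/-- `e^{-(ρ - 1/2) s}` -/
def er (ρ : ℂ) (s : ℝ) : ℂ := Complex.exp (-((ρ - 1 / 2) * s))

lemma er_norm {ρ : ℂ} (h : ρ.re = 1 / 2) (s : ℝ) : ‖er ρ s‖ = 1 := by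
  unfold er
  rw [Complex.norm_exp]
  simp [h]

lemma er_cont (ρ : ℂ) : Continuous (er ρ) := by unfold er; fun_prop

lemma er_conj {ρ : ℂ} (h : ρ.re = 1 / 2) (s : ℝ) : (starRingEnd ℂ) (er ρ s) = Complex.exp ((ρ - 1 / 2) * s) := by
  unfold er
  rw [← Complex.exp_conj]
  congr 1
  apply Complex.ext <;> simp [h]

lemma m0_er (ρ : ℂ) (s : ℝ) : m0 s * er ρ s = mf ρ s := by
  unfold m0 er mf
  push_cast
  rw [mul_assoc, ← Complex.exp_add]
  congr 2; ring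

/-- Bessel's inequality on `(0, L]` -/
lemma bessel (Z : Finset ℂ) (hZ : ∀ ρ ∈ Z, ρ.re = 1 / 2) {L : ℝ} (hL : 0 < L) {h : ℝ → ℂ} (hm : Measurable h)
    (hb : ∃ C, ∀ x, ‖h x‖ ≤ C) :
    ∑ ρ ∈ Z, ‖∫ s in Ioc 0 L, h s * er ρ s‖ ^ 2 ≤
      (L + ∑ ρ ∈ Z, ∑ ρ' ∈ Z, 2 / ‖ρ - ρ'‖) * ∫ s in Ioc 0 L, ‖h s‖ ^ 2 := by
  obtain ⟨B, hB⟩ := hb
  set C : ℝ := ∑ ρ ∈ Z, ∑ ρ' ∈ Z, 2 / ‖ρ - ρ'‖ with hC
  have hC0 : 0 ≤ C := Finset.sum_nonneg fun _ _ => Finset.sum_nonneg fun _ _ => by positivity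
  set b : ℂ → ℂ := fun ρ => ∫ s in Ioc 0 L, h s * er ρ s with hbdef
  set X : ℝ := ∑ ρ ∈ Z, ‖b ρ‖ ^ 2 with hX
  have hX0 : 0 ≤ X := Finset.sum_nonneg fun _ _ => by positivity
  set t : ℝ := 1 / (L + C) with ht
  have ht0 : 0 < t := by positivity
  set S : ℝ → ℂ := fun s => ∑ ρ ∈ Z, (t : ℂ) * b ρ * Complex.exp ((ρ - 1 / 2) * s) with hS
  have hi : IntegrableOn h (Ioc 0 L) := Integrable.of_bound hm.aestronglyMeasurable B (Eventually.of_forall hB)
  have hi2 : IntegrableOn (fun s => ‖h s‖ ^ 2) (Ioc 0 L) :=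
    Integrable.of_bound (hm.norm.pow_const 2).aestronglyMeasurable (B ^ 2) (Eventually.of_forall fun s => by
      rw [Real.norm_of_nonneg (by positivity)]
      exact pow_le_pow_left₀ (norm_nonneg _) (hB s) 2)
  have hie : ∀ ρ ∈ Z, IntegrableOn (fun s => h s * er ρ s) (Ioc 0 L) := fun ρ hρ =>
    Integrable.of_bound (hm.mul (er_cont ρ).measurable).aestronglyMeasurable B (Eventually.of_forall fun s => by
      rw [norm_mul, er_norm (hZ ρ hρ), mul_one]; exact hB s)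
  have hpt : ∀ s, Complex.normSq (h s - S s) = ‖h s‖ ^ 2 -
      2 * (∑ ρ ∈ Z, (t : ℂ) * (starRingEnd ℂ) (b ρ) * (h s * er ρ s)).re +
      (∑ ρ ∈ Z, ∑ ρ' ∈ Z, ((t : ℂ) ^ 2 * (b ρ * (starRingEnd ℂ) (b ρ'))) * Complex.exp ((ρ - ρ') * s)).re := by
    intro s
    rw [Complex.normSq_sub]
    have e2 : (h s * (starRingEnd ℂ) (S s)) = ∑ ρ ∈ Z, (t : ℂ) * (starRingEnd ℂ) (b ρ) * (h s * er ρ s) := by
      rw [hS]
      simp only
      rw [map_sum, Finset.mul_sum]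
      refine Finset.sum_congr rfl fun ρ hρ => ?_
      rw [← er_conj (hZ ρ hρ), map_mul, map_mul, Complex.conj_conj, Complex.conj_ofReal]; ring
    have e3 : Complex.normSq (S s) =
        (∑ ρ ∈ Z, ∑ ρ' ∈ Z, ((t : ℂ) ^ 2 * (b ρ * (starRingEnd ℂ) (b ρ'))) * Complex.exp ((ρ - ρ') * s)).re := by
      have h1 : ((Complex.normSq (S s) : ℝ) : ℂ) =
          ∑ ρ ∈ Z, ∑ ρ' ∈ Z, ((t : ℂ) ^ 2 * (b ρ * (starRingEnd ℂ) (b ρ'))) * Complex.exp ((ρ - ρ') * s) := by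
        rw [Complex.normSq_eq_conj_mul_self, mul_comm, hS]
        simp only
        rw [map_sum, Finset.sum_mul_sum]
        refine Finset.sum_congr rfl fun ρ _ => Finset.sum_congr rfl fun ρ' hρ' => ?_
        rw [map_mul, map_mul, Complex.conj_ofReal, ← er_conj (hZ ρ' hρ'), Complex.conj_conj]
        have : Complex.exp ((ρ - ρ') * s) = Complex.exp ((ρ - 1 / 2) * s) * er ρ' s := by
          unfold er
          rw [← Complex.exp_add]; congr 1; ring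
        rw [this]; ring
      rw [← h1, Complex.ofReal_re]
    rw [e2, e3, Complex.normSq_eq_norm_sq]; ring
  have h0 : 0 ≤ ∫ s in Ioc 0 L, Complex.normSq (h s - S s) := integral_nonneg fun s => Complex.normSq_nonneg _
  have i1 : IntegrableOn (fun s => ∑ ρ ∈ Z, (t : ℂ) * (starRingEnd ℂ) (b ρ) * (h s * er ρ s)) (Ioc 0 L) :=
    integrable_finsetSum _ fun ρ hρ => (hie ρ hρ).const_mul _
  have i2 : IntegrableOn (fun s : ℝ => ∑ ρ ∈ Z, ∑ ρ' ∈ Z, ((t : ℂ) ^ 2 * (b ρ * (starRingEnd ℂ) (b ρ'))) *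
      Complex.exp ((ρ - ρ') * s)) (Ioc 0 L) := cont_iOn (by fun_prop) L
  have i3 := i1.re
  have i4 := i2.re
  simp only [hpt] at h0
  have i5 : IntegrableOn (fun s => 2 * (∑ ρ ∈ Z, (t : ℂ) * (starRingEnd ℂ) (b ρ) * (h s * er ρ s)).re) (Ioc 0 L) :=
    i3.const_mul 2
  have i6 : IntegrableOn (fun s => ‖h s‖ ^ 2 -
      2 * (∑ ρ ∈ Z, (t : ℂ) * (starRingEnd ℂ) (b ρ) * (h s * er ρ s)).re) (Ioc 0 L) := hi2.sub i5
  have i7 : IntegrableOn (fun s : ℝ => (∑ ρ ∈ Z, ∑ ρ' ∈ Z, ((t : ℂ) ^ 2 * (b ρ * (starRingEnd ℂ) (b ρ'))) *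
      Complex.exp ((ρ - ρ') * s)).re) (Ioc 0 L) := i4
  have e4 := integral_add i6 i7
  have e5 := integral_sub hi2 i5
  rw [e4, e5, integral_const_mul] at h0
  have e6 : ∫ s in Ioc 0 L, (∑ ρ ∈ Z, (t : ℂ) * (starRingEnd ℂ) (b ρ) * (h s * er ρ s)).re = t * X := by
    have := integral_re i1
    simp only [RCLike.re_eq_complex_re] at this
    rw [this, integral_finsetSum _ fun ρ hρ => (hie ρ hρ).const_mul _]
    have e : ∀ ρ ∈ Z, ∫ s in Ioc 0 L, (t : ℂ) * (starRingEnd ℂ) (b ρ) * (h s * er ρ s) = ((t * ‖b ρ‖ ^ 2 : ℝ) : ℂ) := by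
      intro ρ _
      rw [integral_const_mul]
      have : ∫ s in Ioc 0 L, h s * er ρ s = b ρ := rfl
      rw [this, mul_assoc, ← Complex.normSq_eq_conj_mul_self, Complex.normSq_eq_norm_sq]
      push_cast; ring
    rw [Finset.sum_congr rfl e, ← Complex.ofReal_sum, Complex.ofReal_re, hX, Finset.mul_sum]
  have e7 : ∫ s in Ioc 0 L, (∑ ρ ∈ Z, ∑ ρ' ∈ Z, ((t : ℂ) ^ 2 * (b ρ * (starRingEnd ℂ) (b ρ'))) *
      Complex.exp ((ρ - ρ') * s)).re = (∑ ρ ∈ Z, ∑ ρ' ∈ Z, ((t : ℂ) ^ 2 * (b ρ * (starRingEnd ℂ) (b ρ'))) *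
        GR (ρ - ρ') L).re := by
    have := integral_re i2
    simp only [RCLike.re_eq_complex_re] at this
    rw [this, integral_finsetSum]
    · congr 1
      refine Finset.sum_congr rfl fun ρ _ => ?_
      rw [integral_finsetSum]
      · refine Finset.sum_congr rfl fun ρ' _ => ?_
        rw [integral_const_mul]; rfl
      · exact fun ρ' _ => cont_iOn (by fun_prop) L
    · exact fun ρ _ => cont_iOn (by fun_prop) L
  rw [e6, e7] at h0
  -- the Gram matrix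
  have hbX : ∀ ρ ∈ Z, ‖b ρ‖ ^ 2 ≤ X := fun ρ hρ =>
    Finset.single_le_sum (f := fun ρ => ‖b ρ‖ ^ 2) (fun _ _ => by positivity) hρ
  have h2 : (∑ ρ ∈ Z, ∑ ρ' ∈ Z, ((t : ℂ) ^ 2 * (b ρ * (starRingEnd ℂ) (b ρ'))) * GR (ρ - ρ') L).re ≤
      t ^ 2 * (X * L) + t ^ 2 * (X * C) := by
    classical
    rw [Complex.re_sum, hX, Finset.sum_mul, Finset.mul_sum, ← hX, hC, Finset.mul_sum, Finset.mul_sum,
      ← Finset.sum_add_distrib]
    refine Finset.sum_le_sum fun ρ hρ => ?_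
    rw [Complex.re_sum]
    have h3 : ∀ ρ' ∈ Z, (((t : ℂ) ^ 2 * (b ρ * (starRingEnd ℂ) (b ρ'))) * GR (ρ - ρ') L).re ≤
        (if ρ' = ρ then t ^ 2 * (‖b ρ‖ ^ 2 * L) else 0) + t ^ 2 * (X * (2 / ‖ρ - ρ'‖)) := by
      intro ρ' hρ'
      by_cases he : ρ' = ρ
      · subst he
        rw [if_pos rfl, sub_self, GR_zero hL.le]
        have e2 : ((t : ℂ) ^ 2 * (b ρ' * (starRingEnd ℂ) (b ρ'))) * (L : ℂ) = ((t ^ 2 * (‖b ρ'‖ ^ 2 * L) : ℝ) : ℂ) := by
          have : b ρ' * (starRingEnd ℂ) (b ρ') = ((‖b ρ'‖ ^ 2 : ℝ) : ℂ) := by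
            rw [mul_comm, ← Complex.normSq_eq_conj_mul_self, Complex.normSq_eq_norm_sq]
          rw [this]; push_cast; ring
        rw [e2, Complex.ofReal_re]
        have : 0 ≤ t ^ 2 * (X * (2 / ‖(0:ℂ)‖)) := by positivity
        linarith
      · rw [if_neg he, zero_add]
        refine (Complex.re_le_norm _).trans ?_
        rw [norm_mul, norm_mul, norm_mul, norm_pow, Complex.norm_real, Real.norm_of_nonneg ht0.le, RCLike.norm_conj,
          mul_assoc]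
        have h4 : ‖GR (ρ - ρ') L‖ ≤ 2 / ‖ρ - ρ'‖ := by
          apply GR_bound (sub_ne_zero.2 (Ne.symm he)) _ hL.le
          rw [Complex.sub_re, hZ ρ hρ, hZ ρ' hρ', sub_self]
        have h5 : ‖b ρ‖ * ‖b ρ'‖ ≤ X := by
          have a1 := hbX ρ hρ
          have a2 := hbX ρ' hρ'
          nlinarith [sq_nonneg (‖b ρ‖ - ‖b ρ'‖)]
        have h6 : ‖b ρ‖ * ‖b ρ'‖ * ‖GR (ρ - ρ') L‖ ≤ X * (2 / ‖ρ - ρ'‖) :=
          mul_le_mul h5 h4 (norm_nonneg _) hX0
        exact mul_le_mul_of_nonneg_left h6 (by positivity)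
    refine (Finset.sum_le_sum h3).trans ?_
    rw [Finset.sum_add_distrib, Finset.sum_ite_eq' Z ρ, if_pos hρ, ← Finset.mul_sum, ← Finset.mul_sum]
  have h3 : t ^ 2 * (X * L) + t ^ 2 * (X * C) = t * X := by
    have : t * (L + C) = 1 := by rw [ht]; field_simp
    calc _ = t * X * (t * (L + C)) := by ring
      _ = t * X := by rw [this, mul_one]
  have h4 : t * X ≤ ∫ s in Ioc 0 L, ‖h s‖ ^ 2 := by linarith
  rw [ht] at h4
  have h5 : X / (L + C) ≤ ∫ s in Ioc 0 L, ‖h s‖ ^ 2 := by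
    refine le_trans (le_of_eq ?_) h4; ring
  rw [div_le_iff₀ (by positivity)] at h5
  linarith

/-- the inequality of Hausdorff and Young at a finite `L` -/
lemma hy_fin (Z : Finset ℂ) (hZ : ∀ ρ ∈ Z, ρ.re = 1 / 2) {p q : ℝ} (hpq : p.HolderConjugate q) (hp2 : p ≤ 2)
    {L : ℝ} (hL : 0 < L) :
    ∑ ρ ∈ Z, ‖PP ρ L‖ ^ q ≤ (L + ∑ ρ ∈ Z, ∑ ρ' ∈ Z, 2 / ‖ρ - ρ'‖) * Ap p L ^ (q / p) := by
  set C : ℝ := ∑ ρ ∈ Z, ∑ ρ' ∈ Z, 2 / ‖ρ - ρ'‖ with hC
  have hC0 : 0 ≤ C := Finset.sum_nonneg fun _ _ => Finset.sum_nonneg fun _ _ => by positivity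
  set f : ℝ → ℂ := (Iic L).indicator m0 with hf
  have hm0 : Measurable m0 := by
    unfold m0
    exact Complex.measurable_ofReal.comp ff_meas
  have hfm : Measurable f := hm0.indicator measurableSet_Iic
  have hnm : ∀ s, ‖m0 s‖ = |ff s| := fun s => by
    unfold m0 ff
    rw [Complex.norm_real, Real.norm_eq_abs]
  have hfb : ∀ s, ‖f s‖ ≤ Real.exp (L / 2) := by
    intro s
    rw [hf]
    by_cases hs : s ∈ Iic L
    · rw [indicator_of_mem hs, hnm]; exact abs_ff_le hs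
    · rw [indicator_of_notMem hs, norm_zero]; positivity
  have key := hy (μ := volume.restrict (Ioc 0 L)) Z er (fun ρ _ => (er_cont ρ).measurable)
    (fun ρ hρ x => (er_norm (hZ ρ hρ) x).le) (N := Real.sqrt (L + C)) (Real.sqrt_nonneg _)
    (fun h hm hb => by rw [Real.sq_sqrt (by positivity)]; exact bessel Z hZ hL hm hb) hpq hp2 hfm hfb
  rw [Real.sq_sqrt (by positivity)] at key
  have e1 : ∀ ρ, ∫ s in Ioc 0 L, f s * er ρ s = PP ρ L := by
    intro ρ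
    unfold PP
    refine setIntegral_congr_fun measurableSet_Ioc fun s hs => ?_
    show f s * er ρ s = mf ρ s
    rw [hf, indicator_of_mem (show s ∈ Iic L from hs.2), m0_er]
  have e2 : ∫ s in Ioc 0 L, ‖f s‖ ^ p = Ap p L := by
    unfold Ap
    refine setIntegral_congr_fun measurableSet_Ioc fun s hs => ?_
    show ‖f s‖ ^ p = |ff s| ^ p
    rw [hf, indicator_of_mem (show s ∈ Iic L from hs.2), hnm]
  simp only [e1, e2] at key
  exact key

/-- **the `ℓ^q` bound over finite sets of zeros** -/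
theorem lq_bound {p q : ℝ} (hpq : p.HolderConjugate q) (hp2 : p ≤ 2) {K : ℝ} (hK : 0 ≤ K)
    (h : ∃ᶠ L in atTop, Ap p L ≤ K ^ p * L) (Z : Finset ℂ)
    (hZ : ∀ ρ ∈ Z, ρ.re = 1 / 2 ∧ riemannZeta ρ = 0 ∧ deriv riemannZeta ρ ≠ 0) :
    ∑ ρ ∈ Z, ‖ww ρ‖ ^ q ≤ K ^ q := by
  have hp0 := hpq.pos
  have hq0 := hpq.symm.pos
  have hp1 : 1 < p := hpq.lt
  have hcon : 1 / p + 1 / q = 1 := by
    have := hpq.inv_add_inv_eq_one
    simpa [one_div] using this
  have hqp : q / p = q - 1 := by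
    have : q * (1 / p + 1 / q) = q := by rw [hcon, mul_one]
    field_simp at this ⊢
    linarith
  set C : ℝ := ∑ ρ ∈ Z, ∑ ρ' ∈ Z, 2 / ‖ρ - ρ'‖ with hC
  have hC0 : 0 ≤ C := Finset.sum_nonneg fun _ _ => Finset.sum_nonneg fun _ _ => by positivity
  set F : Filter ℝ := atTop ⊓ 𝓟 {L | Ap p L ≤ K ^ p * L} with hF
  have : F.NeBot := frequently_iff_neBot.1 h
  have hFt : F ≤ atTop := inf_le_left
  have hFp : ∀ᶠ L in F, Ap p L ≤ K ^ p * L := by
    rw [hF, eventually_inf_principal]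
    exact Eventually.of_forall fun L hL => hL
  have hF1 : ∀ᶠ L in F, (1:ℝ) ≤ L := hFt (eventually_ge_atTop 1)
  -- convergence of the coefficients
  have h1 : ∀ ρ ∈ Z, Tendsto (fun L : ℝ => PP ρ L / (L : ℂ)) F (𝓝 (ww ρ)) := by
    intro ρ hρ
    obtain ⟨D, hD, hP⟩ := PP_approx (hZ ρ hρ).1 (hZ ρ hρ).2.1 (hZ ρ hρ).2.2
    have hlim : Tendsto (fun L : ℝ => D * (L⁻¹ + 2 * K * L ^ (-(1 - 1 / p)))) atTop (𝓝 (D * (0 + 2 * K * 0))) := by
      refine Tendsto.const_mul _ (Tendsto.add tendsto_inv_atTop_zero (Tendsto.const_mul _ ?_))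
      exact tendsto_rpow_neg_atTop (by rw [sub_pos, div_lt_one hp0]; exact hp1)
    rw [mul_zero, add_zero, mul_zero] at hlim
    rw [tendsto_iff_norm_sub_tendsto_zero]
    refine squeeze_zero' (Eventually.of_forall fun L => norm_nonneg _) ?_ (hlim.mono_left hFt)
    filter_upwards [hFp, hF1] with L hL hL1
    have hL0 : 0 < L := by linarith
    have hLc : (L : ℂ) ≠ 0 := by exact_mod_cast hL0.ne'
    have e : PP ρ L / (L : ℂ) - ww ρ = (PP ρ L - ww ρ * (L : ℂ)) / (L : ℂ) := by field_simp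
    rw [e, norm_div, Complex.norm_real, Real.norm_of_nonneg hL0.le, div_le_iff₀ hL0]
    refine (hP L hL0.le).trans ?_
    have h2 := Ee_le hpq hL0.le hK hL
    have h3 : L ^ (-(1 - 1 / p)) * L = L ^ (1 / p) := by
      nth_rewrite 2 [← Real.rpow_one L]
      rw [← Real.rpow_add hL0]; congr 1; ring
    have h4 : D * (L⁻¹ + 2 * K * L ^ (-(1 - 1 / p))) * L = D * (1 + 2 * K * L ^ (1 / p)) := by
      have : L⁻¹ * L = 1 := inv_mul_cancel₀ hL0.ne'
      calc _ = D * (L⁻¹ * L + 2 * K * (L ^ (-(1 - 1 / p)) * L)) := by ring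
        _ = _ := by rw [this, h3]
    rw [h4]
    gcongr
  have h2 : Tendsto (fun L : ℝ => ∑ ρ ∈ Z, ‖PP ρ L / (L : ℂ)‖ ^ q) F (𝓝 (∑ ρ ∈ Z, ‖ww ρ‖ ^ q)) :=
    tendsto_finsetSum _ fun ρ hρ => ((h1 ρ hρ).norm).rpow_const (Or.inr hq0.le)
  have h3 : Tendsto (fun L : ℝ => (1 + C * L⁻¹) * K ^ q) F (𝓝 ((1 + C * 0) * K ^ q)) :=
    ((tendsto_inv_atTop_zero.mono_left hFt).const_mul C |>.const_add 1).mul_const _
  rw [mul_zero, add_zero, one_mul] at h3
  refine le_of_tendsto_of_tendsto h2 h3 ?_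
  filter_upwards [hFp, hF1] with L hL hL1
  have hL0 : 0 < L := by linarith
  have h4 := hy_fin Z (fun ρ hρ => (hZ ρ hρ).1) hpq hp2 hL0
  have h5 : ∑ ρ ∈ Z, ‖PP ρ L / (L : ℂ)‖ ^ q = (∑ ρ ∈ Z, ‖PP ρ L‖ ^ q) / L ^ q := by
    rw [Finset.sum_div]
    refine Finset.sum_congr rfl fun ρ _ => ?_
    rw [norm_div, Complex.norm_real, Real.norm_of_nonneg hL0.le, Real.div_rpow (norm_nonneg _) hL0.le]
  rw [h5, div_le_iff₀ (by positivity)]
  refine h4.trans ?_
  have h6 : Ap p L ^ (q / p) ≤ K ^ q * L ^ (q - 1) := by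
    calc Ap p L ^ (q / p) ≤ (K ^ p * L) ^ (q / p) := Real.rpow_le_rpow (Ap_nonneg p L) hL (by positivity)
      _ = K ^ q * L ^ (q - 1) := by
        rw [Real.mul_rpow (by positivity) hL0.le, ← Real.rpow_mul hK, mul_div_cancel₀ _ hp0.ne', hqp]
  have h7 : (1 + C * L⁻¹) * K ^ q * L ^ q = (L + C) * (K ^ q * L ^ (q - 1)) := by
    have e : L ^ q = L ^ (q - 1) * L := by
      nth_rewrite 3 [← Real.rpow_one L]
      rw [← Real.rpow_add hL0]; congr 1; ring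
    rw [e]
    field_simp
  rw [h7]
  exact mul_le_mul_of_nonneg_left h6 (by positivity)

end

end Pool.Agent.E8helper62.LP
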