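import Pool.Agent.E8helper62.LP.Tr

/-!
# Lower and upper limits of the means of order one
-/

set_option autoImplicit false

open MeasureTheory Filter Topology Set Pool.Agent.H295R2

namespace Pool.Agent.E8helper62.LP

noncomputable section

/-- the two means differ by a factor `2`, up to the local mean -/
lemma A1_sub_As {s : ℝ} (hs : s = 1 ∨ s = -1) : ∃ C : ℝ, 0 < C ∧ ∀ y : ℝ, 0 ≤ y →
    |A1 y - 2 * As s y| ≤ C * (1 + Real.exp (-(y / 2)) * AL y) := by
  obtain ⟨C, hC, hP⟩ := prim_bound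
  refine ⟨C, hC, fun y hy => ?_⟩
  have hfi : IntegrableOn ff (Ioc 0 y) := by
    unfold IntegrableOn
    rw [← integrable_norm_iff ff_meas.aestronglyMeasurable]
    exact ff_int y
  have e : A1 y - 2 * As s y = -(s * ∫ u in Ioc 0 y, ff u) := by
    unfold A1 As
    rw [← integral_const_mul, ← integral_const_mul, ← integral_sub (ff_int y) ((As_int hs y).const_mul 2), ← integral_neg]
    refine integral_congr_ae (Eventually.of_forall fun u => ?_)
    simp only
    rw [abs_ff, H313.TK.part_id s hs (Mx (Real.exp u))]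
    unfold gs ff
    ring
  have hsabs : |s| = 1 := by rcases hs with h | h <;> rw [h] <;> norm_num
  rw [e, abs_neg, abs_mul, hsabs, one_mul]
  exact hP y hy

/-- frequently: from one-sided to two-sided -/
lemma freq_12 {s : ℝ} (hs : s = 1 ∨ s = -1) {K ε : ℝ} (hε : 0 < ε) (h : ∃ᶠ L in atTop, As s L ≤ K * L) :
    ∃ᶠ L in atTop, A1 L ≤ (2 * K + ε) * L := by
  obtain ⟨C, hC, hd⟩ := A1_sub_As hs
  -- choose η
  have hlim : Tendsto (fun η : ℝ => 2 * (K / (1 - η) ^ 2)) (𝓝[>] 0) (𝓝 (2 * (K / (1 - 0) ^ 2))) := by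
    have : ContinuousAt (fun η : ℝ => 2 * (K / (1 - η) ^ 2)) 0 := by
      refine ContinuousAt.mul continuousAt_const (ContinuousAt.div continuousAt_const (by fun_prop) (by norm_num))
    exact this.tendsto.mono_left nhdsWithin_le_nhds
  rw [sub_zero, one_pow, div_one] at hlim
  have h1 := hlim.eventually (gt_mem_nhds (show 2 * K < 2 * K + ε / 2 by linarith))
  obtain ⟨η, hη, hη0, hη1⟩ := (h1.and (Ioo_mem_nhdsGT (show (0:ℝ) < 1 by norm_num))).exists
  obtain ⟨C', hC', hg⟩ := os_good hs hη0 hη1 h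
  have hev : ∀ᶠ y : ℝ in atTop, C * (1 + C') < ε / 2 * y := by
    have : Tendsto (fun y : ℝ => ε / 2 * y) atTop atTop := Tendsto.const_mul_atTop (by positivity) tendsto_id
    exact this.eventually_gt_atTop _
  refine (hg.and_eventually (hev.and (eventually_ge_atTop 0))).mono fun y hy => ?_
  obtain ⟨⟨hE, -, hA⟩, h2, h3⟩ := hy
  have h4 := (abs_le.1 (hd y h3)).2
  have h5 : C * (1 + Real.exp (-(y / 2)) * AL y) ≤ C * (1 + C') := by gcongr
  nlinarith

/-- frequently: from two-sided to one-sided -/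
lemma freq_21 {s : ℝ} (hs : s = 1 ∨ s = -1) {K ε : ℝ} (hε : 0 < ε) (h : ∃ᶠ L in atTop, A1 L ≤ K * L) :
    ∃ᶠ L in atTop, As s L ≤ (1 / 2 * K + ε) * L := by
  obtain ⟨C, hC, hd⟩ := A1_sub_As hs
  have hlim : Tendsto (fun η : ℝ => K / (1 - η)) (𝓝[>] 0) (𝓝 (K / (1 - 0))) := by
    have : ContinuousAt (fun η : ℝ => K / (1 - η)) 0 := by
      refine ContinuousAt.div continuousAt_const (by fun_prop) (by norm_num)
    exact this.tendsto.mono_left nhdsWithin_le_nhds
  rw [sub_zero, div_one] at hlim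
  have h1 := hlim.eventually (gt_mem_nhds (show K < K + ε by linarith))
  obtain ⟨η, hη, hη0, hη1⟩ := (h1.and (Ioo_mem_nhdsGT (show (0:ℝ) < 1 by norm_num))).exists
  have hg := freq_good hη0 hη1 h
  set C' : ℝ := 2 * K / η + 1 with hC'
  have hev : ∀ᶠ y : ℝ in atTop, C * (1 + C') < ε * y := by
    have : Tendsto (fun y : ℝ => ε * y) atTop atTop := Tendsto.const_mul_atTop hε tendsto_id
    exact this.eventually_gt_atTop _
  refine (hg.and_eventually (hev.and (eventually_ge_atTop 0))).mono fun y hy => ?_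
  obtain ⟨⟨hE, hA⟩, h2, h3⟩ := hy
  have h4 := (abs_le.1 (hd y h3)).1
  have h5 : C * (1 + Real.exp (-(y / 2)) * AL y) ≤ C * (1 + C') := by gcongr
  nlinarith

/-- eventually bounded means of one sign give eventually bounded means -/
lemma ev_bdd {s : ℝ} (hs : s = 1 ∨ s = -1) {K : ℝ} (h : ∀ᶠ L in atTop, As s L ≤ K * L) :
    ∃ C : ℝ, 0 < C ∧ ∀ᶠ y in atTop, A1 y ≤ C * y := by
  obtain ⟨C0, hC0, hA⟩ := A1_le_As hs
  refine ⟨C0 * (4 * |K| + 1), by positivity, ?_⟩
  have h4 : Tendsto (fun y : ℝ => 4 * y) atTop atTop := Tendsto.const_mul_atTop (by norm_num) tendsto_id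
  filter_upwards [h4.eventually h, eventually_ge_atTop 1] with y hy hy1
  have hlog : Real.log (4 * (4 * y)) ≤ y + 2 := by
    have e : 4 * (4 * y) = 16 * y := by ring
    rw [e, Real.log_mul (by norm_num) (by linarith)]
    have h1 : Real.log 16 ≤ 3 := by
      rw [Real.log_le_iff_le_exp (by norm_num)]
      have h2 := Real.exp_one_gt_d9
      have h3 : Real.exp 3 = Real.exp 1 ^ 3 := by rw [← Real.exp_nat_mul]; norm_num
      rw [h3]
      have h5 : (2.7 : ℝ) ^ 3 ≤ Real.exp 1 ^ 3 := pow_le_pow_left₀ (by norm_num) (by linarith) 3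
      norm_num at h5 ⊢
      linarith
    have h2 := Real.log_le_sub_one_of_pos (show 0 < y by linarith)
    linarith
  have hc := Nat.ceil_lt_add_one (show 0 ≤ y by linarith)
  have h1 := hA (4 * y) (by linarith) ⌈y⌉₊ (by linarith)
  have h2 := (A1_mono (Nat.le_ceil y)).trans h1
  refine h2.trans ?_
  have h3 : As s (4 * y) ≤ |K| * (4 * y) := hy.trans (mul_le_mul_of_nonneg_right (le_abs_self K) (by linarith))
  calc C0 * (As s (4 * y) + 1) ≤ C0 * ((4 * |K| + 1) * y) := mul_le_mul_of_nonneg_left (by nlinarith) hC0.le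
    _ = _ := by ring

/-- good points everywhere -/
lemma ev_good {C η : ℝ} (hη0 : 0 < η) (hη1 : η < 1) (h : ∀ᶠ y in atTop, A1 y ≤ C * y) :
    ∀ᶠ y in atTop, ∃ y' ∈ Ioc y (y / (1 - η)), Real.exp (-(y' / 2)) * AL y' ≤ 2 * C / η + 1 := by
  have h1η : 0 < 1 - η := by linarith
  have h4 : Tendsto (fun y : ℝ => y / (1 - η)) atTop atTop := tendsto_id.atTop_div_const h1η
  filter_upwards [h4.eventually h, eventually_gt_atTop 0] with y hy hy0
  obtain ⟨y', hy', hE⟩ := exists_good hη0 hη1 (show 0 < y / (1 - η) by positivity) hy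
  rw [mul_div_cancel₀ _ h1η.ne'] at hy'
  exact ⟨y', hy', hE⟩

lemma ev_12 {s : ℝ} (hs : s = 1 ∨ s = -1) {K ε : ℝ} (hε : 0 < ε) (h : ∀ᶠ L in atTop, As s L ≤ K * L) :
    ∀ᶠ L in atTop, A1 L ≤ (2 * K + ε) * L := by
  have hK : 0 ≤ K := by
    obtain ⟨L, hL, hL0⟩ := (h.and (eventually_gt_atTop 0)).exists
    have := (As_nonneg s L).trans hL
    by_contra hc
    push Not at hc
    nlinarith
  obtain ⟨C, hC, hd⟩ := A1_sub_As hs
  obtain ⟨C1, hC1, h1⟩ := ev_bdd hs h
  have hlim : Tendsto (fun η : ℝ => 2 * (K / (1 - η))) (𝓝[>] 0) (𝓝 (2 * (K / (1 - 0)))) := by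
    have : ContinuousAt (fun η : ℝ => 2 * (K / (1 - η))) 0 := by
      refine ContinuousAt.mul continuousAt_const (ContinuousAt.div continuousAt_const (by fun_prop) (by norm_num))
    exact this.tendsto.mono_left nhdsWithin_le_nhds
  rw [sub_zero, div_one] at hlim
  have h2 := hlim.eventually (gt_mem_nhds (show 2 * K < 2 * K + ε / 2 by linarith))
  obtain ⟨η, hη, hη0, hη1⟩ := (h2.and (Ioo_mem_nhdsGT (show (0:ℝ) < 1 by norm_num))).exists
  have h1η : 0 < 1 - η := by linarith
  set C' : ℝ := 2 * C1 / η + 1 with hC'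
  have hev : ∀ᶠ y : ℝ in atTop, C * (1 + C') < ε / 2 * y := by
    have : Tendsto (fun y : ℝ => ε / 2 * y) atTop atTop := Tendsto.const_mul_atTop (by positivity) tendsto_id
    exact this.eventually_gt_atTop _
  obtain ⟨b, hb⟩ := eventually_atTop.1 h
  filter_upwards [ev_good hη0 hη1 h1, hev, eventually_ge_atTop (max b 0)] with y hy h3 h4
  obtain ⟨y', hy', hE⟩ := hy
  have hy0 : 0 ≤ y := (le_max_right _ _).trans h4
  have hb' := hb y' ((le_max_left _ _).trans (h4.trans hy'.1.le))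
  have h5 := (abs_le.1 (hd y' (hy0.trans hy'.1.le))).2
  have h6 : C * (1 + Real.exp (-(y' / 2)) * AL y') ≤ C * (1 + C') := by gcongr
  have h7 := A1_mono hy'.1.le
  have h8 : K * y' ≤ K / (1 - η) * y := by
    calc K * y' ≤ K * (y / (1 - η)) := mul_le_mul_of_nonneg_left hy'.2 hK
      _ = _ := by ring
  nlinarith

lemma ev_21 {s : ℝ} (hs : s = 1 ∨ s = -1) {K ε : ℝ} (hε : 0 < ε) (h : ∀ᶠ L in atTop, A1 L ≤ K * L) :
    ∀ᶠ L in atTop, As s L ≤ (1 / 2 * K + ε) * L := by
  have hK : 0 ≤ K := by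
    obtain ⟨L, hL, hL0⟩ := (h.and (eventually_gt_atTop 0)).exists
    have := (A1_nonneg L).trans hL
    by_contra hc
    push Not at hc
    nlinarith
  obtain ⟨C, hC, hd⟩ := A1_sub_As hs
  have hlim : Tendsto (fun η : ℝ => K / (1 - η)) (𝓝[>] 0) (𝓝 (K / (1 - 0))) := by
    have : ContinuousAt (fun η : ℝ => K / (1 - η)) 0 := by
      refine ContinuousAt.div continuousAt_const (by fun_prop) (by norm_num)
    exact this.tendsto.mono_left nhdsWithin_le_nhds
  rw [sub_zero, div_one] at hlim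
  have h2 := hlim.eventually (gt_mem_nhds (show K < K + ε by linarith))
  obtain ⟨η, hη, hη0, hη1⟩ := (h2.and (Ioo_mem_nhdsGT (show (0:ℝ) < 1 by norm_num))).exists
  have h1η : 0 < 1 - η := by linarith
  set C' : ℝ := 2 * K / η + 1 with hC'
  have hev : ∀ᶠ y : ℝ in atTop, C * (1 + C') < ε * y := by
    have : Tendsto (fun y : ℝ => ε * y) atTop atTop := Tendsto.const_mul_atTop hε tendsto_id
    exact this.eventually_gt_atTop _
  obtain ⟨b, hb⟩ := eventually_atTop.1 h
  filter_upwards [ev_good hη0 hη1 h, hev, eventually_ge_atTop (max b 0)] with y hy h3 h4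
  obtain ⟨y', hy', hE⟩ := hy
  have hy0 : 0 ≤ y := (le_max_right _ _).trans h4
  have hb' := hb y' ((le_max_left _ _).trans (h4.trans hy'.1.le))
  have h5 := (abs_le.1 (hd y' (hy0.trans hy'.1.le))).1
  have h6 : C * (1 + Real.exp (-(y' / 2)) * AL y') ≤ C * (1 + C') := by gcongr
  have h7 := As_mono hs hy'.1.le
  have h8 : K * y' ≤ K / (1 - η) * y := by
    calc K * y' ≤ K * (y / (1 - η)) := mul_le_mul_of_nonneg_left hy'.2 hK
      _ = _ := by ring
  nlinarith

/-- comparison of lower limits -/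
lemma liminf_cmp {F G : ℝ → ℝ} {c : ℝ} (hc : 0 < c)
    (h : ∀ K ε : ℝ, 0 < ε → (∃ᶠ x in atTop, G x ≤ K) → ∃ᶠ x in atTop, F x ≤ c * K + ε) :
    liminf (fun x => ENNReal.ofReal (F x)) atTop ≤ ENNReal.ofReal c * liminf (fun x => ENNReal.ofReal (G x)) atTop := by
  set g := liminf (fun x => ENNReal.ofReal (G x)) atTop with hg
  by_cases htop : g = ⊤
  · rw [htop, ENNReal.mul_top (by simpa using hc)]
    exact le_top
  have hε : ∀ ε : ℝ, 0 < ε → liminf (fun x => ENNReal.ofReal (F x)) atTop ≤ ENNReal.ofReal (c * (g.toReal + ε) + ε) := by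
    intro ε hε
    have h1 : g < ENNReal.ofReal (g.toReal + ε) := by
      rw [ENNReal.lt_ofReal_iff_toReal_lt htop]; linarith
    have h2 : ∃ᶠ x in atTop, ENNReal.ofReal (G x) < ENNReal.ofReal (g.toReal + ε) := frequently_lt_of_liminf_lt (by isBoundedDefault) h1
    have h3 : ∃ᶠ x in atTop, G x ≤ g.toReal + ε := h2.mono fun x hx => by
      by_contra hcon
      push Not at hcon
      exact absurd (ENNReal.ofReal_le_ofReal hcon.le) (not_le.2 hx)
    exact liminf_le_of_frequently_le' ((h _ ε hε h3).mono fun x hx => ENNReal.ofReal_le_ofReal hx)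
  have hlim : Tendsto (fun ε : ℝ => ENNReal.ofReal (c * (g.toReal + ε) + ε)) (𝓝[>] 0)
      (𝓝 (ENNReal.ofReal (c * (g.toReal + 0) + 0))) := by
    have : Continuous (fun ε : ℝ => ENNReal.ofReal (c * (g.toReal + ε) + ε)) :=
      ENNReal.continuous_ofReal.comp (by fun_prop)
    exact (this.tendsto 0).mono_left nhdsWithin_le_nhds
  rw [add_zero, add_zero, ENNReal.ofReal_mul hc.le, ENNReal.ofReal_toReal htop] at hlim
  exact ge_of_tendsto hlim (eventually_mem_nhdsWithin.mono fun ε hε' => hε ε hε')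

/-- comparison of upper limits -/
lemma limsup_cmp {F G : ℝ → ℝ} {c : ℝ} (hc : 0 < c)
    (h : ∀ K ε : ℝ, 0 < ε → (∀ᶠ x in atTop, G x ≤ K) → ∀ᶠ x in atTop, F x ≤ c * K + ε) :
    limsup (fun x => ENNReal.ofReal (F x)) atTop ≤ ENNReal.ofReal c * limsup (fun x => ENNReal.ofReal (G x)) atTop := by
  set g := limsup (fun x => ENNReal.ofReal (G x)) atTop with hg
  by_cases htop : g = ⊤
  · rw [htop, ENNReal.mul_top (by simpa using hc)]
    exact le_top
  have hε : ∀ ε : ℝ, 0 < ε → limsup (fun x => ENNReal.ofReal (F x)) atTop ≤ ENNReal.ofReal (c * (g.toReal + ε) + ε) := by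
    intro ε hε
    have h1 : g < ENNReal.ofReal (g.toReal + ε) := by
      rw [ENNReal.lt_ofReal_iff_toReal_lt htop]; linarith
    have h2 : ∀ᶠ x in atTop, ENNReal.ofReal (G x) < ENNReal.ofReal (g.toReal + ε) := eventually_lt_of_limsup_lt h1
    have h3 : ∀ᶠ x in atTop, G x ≤ g.toReal + ε := h2.mono fun x hx => by
      by_contra hcon
      push Not at hcon
      exact absurd (ENNReal.ofReal_le_ofReal hcon.le) (not_le.2 hx)
    exact limsup_le_of_le (by isBoundedDefault) ((h _ ε hε h3).mono fun x hx => ENNReal.ofReal_le_ofReal hx)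
  have hlim : Tendsto (fun ε : ℝ => ENNReal.ofReal (c * (g.toReal + ε) + ε)) (𝓝[>] 0)
      (𝓝 (ENNReal.ofReal (c * (g.toReal + 0) + 0))) := by
    have : Continuous (fun ε : ℝ => ENNReal.ofReal (c * (g.toReal + ε) + ε)) :=
      ENNReal.continuous_ofReal.comp (by fun_prop)
    exact (this.tendsto 0).mono_left nhdsWithin_le_nhds
  rw [add_zero, add_zero, ENNReal.ofReal_mul hc.le, ENNReal.ofReal_toReal htop] at hlim
  exact ge_of_tendsto hlim (eventually_mem_nhdsWithin.mono fun ε hε' => hε ε hε')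

end

end Pool.Agent.E8helper62.LP
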