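import Pool.Agent.E8helper62.LP.L1
import Pool.Agent.H313R3.TK.J

/-!
# The mean of `|M(u)| / √u` is bounded by the mean of its positive (negative) part
-/

set_option autoImplicit false

open MeasureTheory Filter Topology Set Pool.Agent.H295R2

namespace Pool.Agent.E8helper62.LP

noncomputable section

open H313.TK (kp C0 D1 kp_bounds kp_nonneg kp_cont W_pos W_decay avg_int avg_mm part_id part_le tail mm MM refl_Icc
  int_exp_abs C0_nonneg D1_nonneg)

/-- the positive part of `s M(e^u)` -/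
def gs (s u : ℝ) : ℝ := max (s * Mx (Real.exp u)) 0

/-- the one-sided mean -/
def As (s L : ℝ) : ℝ := ∫ u in Ioc 0 L, gs s u * Real.exp (-(u / 2))

lemma mm_eq (u : ℝ) : mm u = Mx (Real.exp u) := rfl

lemma gs_nonneg (s u : ℝ) : 0 ≤ gs s u := le_max_right _ _

lemma gs_meas (s : ℝ) : Measurable (gs s) := by
  unfold gs
  exact ((Mx_meas.comp Real.measurable_exp).const_mul s).max measurable_const

lemma gs_le_abs {s : ℝ} (hs : s = 1 ∨ s = -1) (u : ℝ) : gs s u ≤ |Mx (Real.exp u)| := by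
  have := part_le s hs (Mx (Real.exp u))
  rwa [abs_of_nonneg (le_max_right _ _)] at this

lemma gs_le {s : ℝ} (hs : s = 1 ∨ s = -1) (u : ℝ) : gs s u ≤ Real.exp u :=
  (gs_le_abs hs u).trans (abs_Mx_le (Real.exp_pos u).le)

lemma Mx_exp_neg {u : ℝ} (hu : u < 0) : Mx (Real.exp u) = 0 := by
  unfold Mx
  have h1 : ⌊Real.exp u⌋₊ = 0 := by
    rw [Nat.floor_eq_zero]
    rw [← Real.exp_zero]; exact Real.exp_lt_exp.2 hu
  rw [h1]; simp

lemma gs_zero {s u : ℝ} (hu : u < 0) : gs s u = 0 := by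
  unfold gs
  rw [Mx_exp_neg hu]; simp

lemma As_int {s : ℝ} (hs : s = 1 ∨ s = -1) (L : ℝ) : IntegrableOn (fun u => gs s u * Real.exp (-(u / 2))) (Ioc 0 L) := by
  refine (ff_int L).mono' (((gs_meas s).mul (Continuous.measurable (by fun_prop))).aestronglyMeasurable) ?_
  refine Eventually.of_forall fun u => ?_
  rw [norm_mul, Real.norm_of_nonneg (gs_nonneg s u), Real.norm_of_nonneg (Real.exp_pos _).le, abs_ff]
  exact mul_le_mul_of_nonneg_right (gs_le_abs hs u) (Real.exp_pos _).le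

lemma As_nonneg (s L : ℝ) : 0 ≤ As s L := integral_nonneg fun u => mul_nonneg (gs_nonneg s u) (Real.exp_pos _).le

lemma As_mono {s : ℝ} (hs : s = 1 ∨ s = -1) {a b : ℝ} (h : a ≤ b) : As s a ≤ As s b :=
  setIntegral_mono_set (As_int hs b) (Eventually.of_forall fun u => mul_nonneg (gs_nonneg s u) (Real.exp_pos _).le)
    (Eventually.of_forall (Ioc_subset_Ioc_right h))

/-- the constant of the averages of `M` -/
def EE : ℝ := 48 * ∫ x : ℝ, Real.exp (-(2 * |x|))

lemma EE_nonneg : 0 ≤ EE := by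
  unfold EE
  have : 0 ≤ ∫ x : ℝ, Real.exp (-(2 * |x|)) := integral_nonneg fun x => (Real.exp_pos _).le
  positivity

lemma abs_int (t : ℝ) : Integrable (fun v => |Mx (Real.exp (t - v))| * kp v) :=
  avg_int (fun u => |Mx (Real.exp u)|) (continuous_abs.measurable.comp (Mx_meas.comp Real.measurable_exp))
    (fun u => by rw [abs_abs]; exact abs_Mx_le (Real.exp_pos u).le) t

lemma gs_int {s : ℝ} (hs : s = 1 ∨ s = -1) (t : ℝ) : Integrable (fun v => gs s (t - v) * kp v) :=
  avg_int (gs s) (gs_meas s) (fun u => by rw [abs_of_nonneg (gs_nonneg s u)]; exact gs_le hs u) t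

/-- two-sided averages in terms of one-sided averages -/
lemma abs_avg {s : ℝ} (hs : s = 1 ∨ s = -1) (t : ℝ) :
    ∫ v, |Mx (Real.exp (t - v))| * kp v ≤ 2 * (∫ v, gs s (t - v) * kp v) + EE := by
  have i1 : Integrable (fun v => Mx (Real.exp (t - v)) * kp v) :=
    avg_int (fun u => Mx (Real.exp u)) (Mx_meas.comp Real.measurable_exp) (fun u => abs_Mx_le (Real.exp_pos u).le) t
  have i3 := gs_int hs t
  have e1 : ∫ v, |Mx (Real.exp (t - v))| * kp v = 2 * (∫ v, gs s (t - v) * kp v) - s * ∫ v, Mx (Real.exp (t - v)) * kp v := by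
    rw [← integral_const_mul, ← integral_const_mul, ← integral_sub (i3.const_mul 2) (i1.const_mul s)]
    refine integral_congr_ae (Eventually.of_forall fun v => ?_)
    simp only
    rw [part_id s hs (Mx (Real.exp (t - v)))]
    unfold gs
    ring
  have h := avg_mm t
  simp only [mm_eq] at h
  rw [e1]
  have h2 : -(s * ∫ v, Mx (Real.exp (t - v)) * kp v) ≤ EE := by
    refine le_trans (neg_le_abs _) ?_
    rw [abs_mul]
    have : |s| = 1 := by rcases hs with h | h <;> rw [h] <;> norm_num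
    rw [this, one_mul]
    exact h
  linarith

/-- lower bound of the kernel -/
def k0 : ℝ := 1 / 2 * Real.exp (-(Real.pi / 4 * Real.exp 2))

lemma k0_pos : 0 < k0 := by unfold k0; positivity

lemma k0_le {v : ℝ} (h0 : 0 ≤ v) (h1 : v ≤ 1) : k0 ≤ kp v := by
  refine le_trans ?_ (kp_bounds v).1
  unfold k0 H313.TK.W
  refine mul_le_mul_of_nonneg_left (Real.exp_le_exp.2 ?_) (by norm_num)
  rw [max_eq_left h0, abs_of_nonneg h0]
  have h2 : Real.exp (2 * v) ≤ Real.exp 2 := Real.exp_le_exp.2 (by linarith)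
  have := Real.pi_pos
  nlinarith

/-- one unit block -/
lemma block (t : ℝ) (ht : 0 ≤ t) : k0 * Real.exp (-(1 / 2)) * ∫ u in Ioc t (t + 1), |ff u| ≤
    Real.exp (-((t + 1) / 2)) * ∫ v, |Mx (Real.exp (t + 1 - v))| * kp v := by
  have hi := abs_int (t + 1)
  have h1 : ∫ v in Icc 0 1, |Mx (Real.exp (t + 1 - v))| * kp v ≤ ∫ v, |Mx (Real.exp (t + 1 - v))| * kp v :=
    setIntegral_le_integral hi (Eventually.of_forall fun v => mul_nonneg (abs_nonneg _) (kp_nonneg v))
  have hm : Measurable fun v : ℝ => |Mx (Real.exp (t + 1 - v))| :=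
    continuous_abs.measurable.comp (Mx_meas.comp (Real.measurable_exp.comp (measurable_const.sub measurable_id)))
  have hi2 : IntegrableOn (fun v => |Mx (Real.exp (t + 1 - v))|) (Icc 0 1) := by
    refine Measure.integrableOn_of_bounded (M := Real.exp (t + 1)) (by simp) hm.aestronglyMeasurable ?_
    filter_upwards [ae_restrict_mem measurableSet_Icc] with v hv
    rw [Real.norm_eq_abs, abs_abs]
    exact (abs_Mx_le (Real.exp_pos _).le).trans (Real.exp_le_exp.2 (by linarith [hv.1]))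
  have h2 : k0 * ∫ v in Icc 0 1, |Mx (Real.exp (t + 1 - v))| ≤ ∫ v in Icc 0 1, |Mx (Real.exp (t + 1 - v))| * kp v := by
    rw [← integral_const_mul]
    refine setIntegral_mono_on (hi2.const_mul _) hi.integrableOn measurableSet_Icc fun v hv => ?_
    rw [mul_comm]
    exact mul_le_mul_of_nonneg_left (k0_le hv.1 hv.2) (abs_nonneg _)
  have h3 : ∫ v in Icc 0 1, |Mx (Real.exp (t + 1 - v))| = ∫ u in Ioc t (t + 1), |Mx (Real.exp u)| := by
    rw [← integral_Icc_eq_integral_Ioc, ← integral_indicator measurableSet_Icc, ← integral_indicator measurableSet_Icc,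
      ← integral_sub_left_eq_self (fun u => (Icc t (t + 1)).indicator (fun u => |Mx (Real.exp u)|) u) volume (t + 1)]
    refine integral_congr_ae (Eventually.of_forall fun v => ?_)
    simp only
    by_cases h : v ∈ Icc (0:ℝ) 1
    · rw [indicator_of_mem h, indicator_of_mem (show t + 1 - v ∈ Icc t (t + 1) by
        constructor <;> linarith [h.1, h.2])]
    · rw [indicator_of_notMem h, indicator_of_notMem (show t + 1 - v ∉ Icc t (t + 1) by
        intro h2
        exact h ⟨by linarith [h2.2], by linarith [h2.1]⟩)]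
  have h4 : Real.exp (t / 2) * ∫ u in Ioc t (t + 1), |ff u| ≤ ∫ u in Ioc t (t + 1), |Mx (Real.exp u)| := by
    rw [← integral_const_mul]
    refine setIntegral_mono_on (((ff_int (t + 1)).mono_set (Ioc_subset_Ioc_left ht)).const_mul _)
      ((abs_Mx_integrable (t + 1)).mono_set (Ioc_subset_Ioc_left ht)) measurableSet_Ioc fun u hu => ?_
    rw [abs_ff]
    calc Real.exp (t / 2) * (|Mx (Real.exp u)| * Real.exp (-(u / 2))) =
        |Mx (Real.exp u)| * (Real.exp (t / 2) * Real.exp (-(u / 2))) := by ring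
      _ ≤ |Mx (Real.exp u)| * 1 := by
        refine mul_le_mul_of_nonneg_left ?_ (abs_nonneg _)
        rw [← Real.exp_add, Real.exp_le_one_iff]
        linarith [hu.1]
      _ = _ := mul_one _
  have h5 : Real.exp (-((t + 1) / 2)) * Real.exp (t / 2) = Real.exp (-(1 / 2)) := by
    rw [← Real.exp_add]; congr 1; ring
  have hk := k0_pos
  have he := Real.exp_pos (-((t + 1) / 2))
  calc k0 * Real.exp (-(1 / 2)) * ∫ u in Ioc t (t + 1), |ff u| =
      Real.exp (-((t + 1) / 2)) * (k0 * (Real.exp (t / 2) * ∫ u in Ioc t (t + 1), |ff u|)) := by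
        rw [← h5]; ring
    _ ≤ Real.exp (-((t + 1) / 2)) * (k0 * ∫ u in Ioc t (t + 1), |Mx (Real.exp u)|) := by
        refine mul_le_mul_of_nonneg_left (mul_le_mul_of_nonneg_left h4 hk.le) he.le
    _ = Real.exp (-((t + 1) / 2)) * (k0 * ∫ v in Icc 0 1, |Mx (Real.exp (t + 1 - v))|) := by rw [h3]
    _ ≤ _ := mul_le_mul_of_nonneg_left (h2.trans h1) he.le

/-- the sum of the blocks -/
lemma A1_sum (N : ℕ) : k0 * Real.exp (-(1 / 2)) * A1 N ≤
    ∑ n ∈ Finset.range N, Real.exp (-(((n : ℝ) + 1) / 2)) * ∫ v, |Mx (Real.exp ((n : ℝ) + 1 - v))| * kp v := by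
  induction N with
  | zero => simp [A1]
  | succ N ih =>
    rw [Finset.sum_range_succ]
    have h1 : A1 ((N + 1 : ℕ) : ℝ) = A1 N + ∫ u in Ioc (N : ℝ) (N + 1), |ff u| := by
      unfold A1
      push_cast
      rw [← setIntegral_union _ measurableSet_Ioc (ff_int N)
        ((ff_int (N + 1)).mono_set (Ioc_subset_Ioc_left (Nat.cast_nonneg N))),
        Ioc_union_Ioc_eq_Ioc (Nat.cast_nonneg N) (by linarith)]
      exact Set.disjoint_left.2 fun x hx hx' => absurd hx.2 (not_le.2 hx'.1)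
    have h2 := block (N : ℝ) (Nat.cast_nonneg N)
    rw [h1, mul_add]
    linarith

/-- the constant in the sum of kernels -/
def DD : ℝ := 4 * C0 * (Real.exp 2 * ∫ x : ℝ, Real.exp (-(2 * |x|)))

lemma DD_nonneg : 0 ≤ DD := by
  unfold DD
  have : 0 ≤ ∫ x : ℝ, Real.exp (-(2 * |x|)) := integral_nonneg fun x => (Real.exp_pos _).le
  have := C0_nonneg
  positivity

lemma kp_half (v : ℝ) : Real.exp (-(v / 2)) * kp v ≤ 4 * C0 * Real.exp (-(2 * |v|)) := by
  have h1 := W_decay v
  have hC0 := C0_nonneg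
  have hW := W_pos v
  have h2 : Real.exp (-(v / 2)) ≤ Real.exp |v| := Real.exp_le_exp.2 (by
    have := neg_abs_le v
    have := abs_nonneg v
    linarith)
  have h3 : H313.TK.W v ≤ 4 * Real.exp (-(3 * |v|)) := by
    have h4 : H313.TK.W v = H313.TK.W v * Real.exp (2 * |v|) * Real.exp (-(2 * |v|)) := by
      rw [mul_assoc, ← Real.exp_add, add_neg_cancel, Real.exp_zero, mul_one]
    rw [h4]
    calc H313.TK.W v * Real.exp (2 * |v|) * Real.exp (-(2 * |v|)) ≤ 4 * Real.exp (-|v|) * Real.exp (-(2 * |v|)) :=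
          mul_le_mul_of_nonneg_right h1 (Real.exp_pos _).le
      _ = _ := by rw [mul_assoc, ← Real.exp_add]; congr 2; ring
  calc Real.exp (-(v / 2)) * kp v ≤ Real.exp |v| * (C0 * (4 * Real.exp (-(3 * |v|)))) :=
        mul_le_mul h2 ((kp_bounds v).2.trans (mul_le_mul_of_nonneg_left h3 hC0)) (kp_nonneg v) (Real.exp_pos _).le
    _ = 4 * C0 * (Real.exp |v| * Real.exp (-(3 * |v|))) := by ring
    _ = _ := by rw [← Real.exp_add]; congr 2; ring

lemma sum_kernel (N : ℕ) (u : ℝ) :
    ∑ n ∈ Finset.range N, Real.exp (-(((n : ℝ) + 1 - u) / 2)) * kp ((n : ℝ) + 1 - u) ≤ DD := by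
  have hint : Integrable (fun x : ℝ => Real.exp (-(2 * |x - u|))) := (int_exp_abs 2 (by norm_num)).comp_sub_right u
  have h1 : ∀ n : ℕ, Real.exp (-(2 * |(n : ℝ) + 1 - u|)) ≤ Real.exp 2 * ∫ x in (n : ℝ)..((n + 1 : ℕ) : ℝ), Real.exp (-(2 * |x - u|)) := by
    intro n
    have h2 : ∫ x in (n : ℝ)..((n + 1 : ℕ) : ℝ), (Real.exp (-2) * Real.exp (-(2 * |(n : ℝ) + 1 - u|))) ≤
        ∫ x in (n : ℝ)..((n + 1 : ℕ) : ℝ), Real.exp (-(2 * |x - u|)) := by
      refine intervalIntegral.integral_mono_on (by push_cast; linarith) (by simp) hint.intervalIntegrable fun x hx => ?_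
      rw [← Real.exp_add]
      refine Real.exp_le_exp.2 ?_
      push_cast at hx
      have h3 : |x - u| ≤ |(n : ℝ) + 1 - u| + 1 := by
        have h4 : |x - u| ≤ |(n : ℝ) + 1 - u| + |x - ((n : ℝ) + 1)| := by
          have := abs_add_le ((n : ℝ) + 1 - u) (x - ((n : ℝ) + 1))
          rwa [show (n : ℝ) + 1 - u + (x - ((n : ℝ) + 1)) = x - u by ring] at this
        have h5 : |x - ((n : ℝ) + 1)| ≤ 1 := by rw [abs_le]; constructor <;> linarith [hx.1, hx.2]
        linarith
      linarith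
    rw [intervalIntegral.integral_const, smul_eq_mul] at h2
    push_cast at h2 ⊢
    rw [add_sub_cancel_left, one_mul] at h2
    have h3 : Real.exp 2 * Real.exp (-2) = 1 := by rw [← Real.exp_add]; simp
    calc Real.exp (-(2 * |(n : ℝ) + 1 - u|)) = Real.exp 2 * (Real.exp (-2) * Real.exp (-(2 * |(n : ℝ) + 1 - u|))) := by
          rw [← mul_assoc, h3, one_mul]
      _ ≤ _ := mul_le_mul_of_nonneg_left h2 (Real.exp_pos _).le
  have h2 : ∑ n ∈ Finset.range N, Real.exp (-(2 * |(n : ℝ) + 1 - u|)) ≤ Real.exp 2 * ∫ x : ℝ, Real.exp (-(2 * |x|)) := by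
    refine (Finset.sum_le_sum fun n _ => h1 n).trans ?_
    rw [← Finset.mul_sum]
    refine mul_le_mul_of_nonneg_left ?_ (Real.exp_pos _).le
    have h3 := intervalIntegral.sum_integral_adjacent_intervals (μ := volume) (f := fun x : ℝ => Real.exp (-(2 * |x - u|)))
      (a := fun n : ℕ => (n : ℝ)) (n := N) (fun k _ => hint.intervalIntegrable)
    rw [h3, intervalIntegral.integral_of_le (by simp)]
    refine (setIntegral_le_integral hint (Eventually.of_forall fun x => (Real.exp_pos _).le)).trans (le_of_eq ?_)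
    exact integral_sub_right_eq_self (fun x : ℝ => Real.exp (-(2 * |x|))) u
  calc _ ≤ ∑ n ∈ Finset.range N, 4 * C0 * Real.exp (-(2 * |(n : ℝ) + 1 - u|)) := Finset.sum_le_sum fun n _ => kp_half _
    _ = 4 * C0 * ∑ n ∈ Finset.range N, Real.exp (-(2 * |(n : ℝ) + 1 - u|)) := by rw [Finset.mul_sum]
    _ ≤ _ := by
      unfold DD
      have := C0_nonneg
      exact mul_le_mul_of_nonneg_left h2 (by positivity)

/-- **the two-sided mean is bounded by the one-sided mean** -/
theorem A1_le_As {s : ℝ} (hs : s = 1 ∨ s = -1) : ∃ C : ℝ, 0 < C ∧ ∀ L : ℝ, 1 ≤ L → ∀ N : ℕ,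
    (N : ℝ) + Real.log (4 * L) / 2 ≤ L → A1 N ≤ C * (As s L + 1) := by
  have hk := k0_pos
  have hDD := DD_nonneg
  have hEE := EE_nonneg
  have hC0 := C0_nonneg
  have hD1 := D1_nonneg
  set T : ℝ := 8 * C0 * D1 with hT
  have hT0 : 0 ≤ T := by positivity
  have hgeo : ∀ N : ℕ, ∑ n ∈ Finset.range N, Real.exp (-(((n : ℝ) + 1) / 2)) ≤ DD + 4 := by
    intro N
    have h1 : Summable fun n : ℕ => Real.exp (-(1 / 2)) ^ n :=
      summable_geometric_of_lt_one (Real.exp_pos _).le (Real.exp_lt_one_iff.2 (by norm_num))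
    have h2 : ∑ n ∈ Finset.range N, Real.exp (-(((n : ℝ) + 1) / 2)) ≤ ∑ n ∈ Finset.range N, Real.exp (-(1 / 2)) ^ n := by
      refine Finset.sum_le_sum fun n _ => ?_
      rw [← Real.exp_nat_mul]
      exact Real.exp_le_exp.2 (by linarith)
    refine h2.trans ((h1.sum_le_tsum _ fun n _ => by positivity).trans ?_)
    rw [tsum_geometric_of_lt_one (Real.exp_pos _).le (Real.exp_lt_one_iff.2 (by norm_num))]
    have h3 : Real.exp (-(1 / 2)) ≤ 3 / 4 := by
      rw [Real.exp_neg, inv_le_comm₀ (Real.exp_pos _) (by norm_num)]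
      have := Real.add_one_le_exp (1 / 2 : ℝ)
      norm_num at this ⊢
      linarith
    have h4 : (1 - Real.exp (-(1 / 2)))⁻¹ ≤ 4 := by
      rw [inv_le_comm₀ (by linarith) (by norm_num)]
      linarith
    linarith
  refine ⟨(2 * DD + 2 * T + EE * (DD + 4) + 1) / (k0 * Real.exp (-(1 / 2))), by positivity, fun L hL N hN => ?_⟩
  set a : ℝ := Real.log (4 * L) / 2 with ha
  have ha0 : 0 ≤ a := by rw [ha]; have := Real.log_nonneg (show 1 ≤ 4 * L by linarith); positivity
  have hea : Real.exp (2 * a) = 4 * L := by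
    rw [ha, mul_div_cancel₀ _ (by norm_num), Real.exp_log (by linarith)]
  have hAs := As_nonneg s L
  -- the tail
  have htail : ∀ n ∈ Finset.range N, Real.exp (-(((n : ℝ) + 1) / 2)) * (T * (Real.exp ((n : ℝ) + 1 + a) * H313.TK.W (-a))) ≤
      T * Real.exp (-L) := by
    intro n hn
    rw [Finset.mem_range] at hn
    have hn1 : (n : ℝ) + 1 ≤ N := by exact_mod_cast hn
    have hW : H313.TK.W (-a) ≤ Real.exp (-(2 * L)) := by
      unfold H313.TK.W
      rw [abs_neg, abs_of_nonneg ha0, hea, max_eq_right (by linarith)]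
      refine Real.exp_le_exp.2 ?_
      have := Real.pi_gt_three
      nlinarith
    have h1 : Real.exp (-(((n : ℝ) + 1) / 2)) ≤ 1 := by
      rw [Real.exp_le_one_iff]
      have : (0:ℝ) ≤ n := Nat.cast_nonneg n
      linarith
    calc Real.exp (-(((n : ℝ) + 1) / 2)) * (T * (Real.exp ((n : ℝ) + 1 + a) * H313.TK.W (-a))) ≤
        1 * (T * (Real.exp L * Real.exp (-(2 * L)))) := by
          refine mul_le_mul h1 (mul_le_mul_of_nonneg_left (mul_le_mul (Real.exp_le_exp.2 (by linarith)) hW (W_pos _).le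
            (Real.exp_pos _).le) hT0) ?_ zero_le_one
          have := W_pos (-a)
          positivity
      _ = _ := by rw [one_mul, ← Real.exp_add]; congr 2; ring
  have htail2 : ∑ n ∈ Finset.range N, T * Real.exp (-L) ≤ T := by
    rw [Finset.sum_const, Finset.card_range, nsmul_eq_mul]
    have h1 : (N : ℝ) * Real.exp (-L) ≤ 1 := by
      rw [Real.exp_neg, ← div_eq_mul_inv, div_le_one (Real.exp_pos _)]
      have := Real.add_one_le_exp L
      linarith
    calc (N : ℝ) * (T * Real.exp (-L)) = T * ((N : ℝ) * Real.exp (-L)) := by ring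
      _ ≤ T * 1 := mul_le_mul_of_nonneg_left h1 hT0
      _ = T := mul_one _
  -- the main part
  have hker : ∀ n : ℕ, n ∈ Finset.range N → IntegrableOn (fun u => gs s u * kp ((n : ℝ) + 1 - u)) (Ioc 0 L) := by
    intro n _
    have h1 := gs_int hs ((n : ℝ) + 1)
    have h2 := h1.comp_sub_left ((n : ℝ) + 1)
    refine (h2.congr (Eventually.of_forall fun u => ?_)).integrableOn
    simp
  have hmain : ∀ n ∈ Finset.range N, ∫ v in Icc (-a) a, gs s ((n : ℝ) + 1 - v) * kp v ≤
      ∫ u in Ioc 0 L, gs s u * kp ((n : ℝ) + 1 - u) := by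
    intro n hn
    have hn' := hn
    rw [Finset.mem_range] at hn'
    have hn1 : (n : ℝ) + 1 ≤ N := by exact_mod_cast hn'
    have h1 := refl_Icc (fun u => gs s u * kp ((n : ℝ) + 1 - u)) ((n : ℝ) + 1) a
    simp only [sub_sub_cancel] at h1
    rw [h1]
    have h2 : ∀ᵐ u : ℝ, u ≠ 0 := by
      rw [ae_iff]; simp
    rw [← integral_indicator measurableSet_Icc, ← integral_indicator measurableSet_Ioc]
    refine integral_mono_ae ?_ ?_ ?_
    · rw [integrable_indicator_iff measurableSet_Icc]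
      have h1 := (gs_int hs ((n : ℝ) + 1)).comp_sub_left ((n : ℝ) + 1)
      refine (h1.congr (Eventually.of_forall fun u => ?_)).integrableOn
      simp
    · rw [integrable_indicator_iff measurableSet_Ioc]; exact hker n hn
    · filter_upwards [h2] with u hu
      by_cases h3 : u ∈ Icc ((n : ℝ) + 1 - a) ((n : ℝ) + 1 + a)
      · rw [indicator_of_mem h3]
        rcases lt_or_gt_of_ne hu with h4 | h4
        · rw [gs_zero h4, zero_mul, indicator_of_notMem]
          exact fun h5 => absurd h5.1 (not_lt.2 h4.le)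
        · rw [indicator_of_mem (show u ∈ Ioc 0 L from ⟨h4, by linarith [h3.2]⟩)]
      · rw [indicator_of_notMem h3]
        exact indicator_nonneg (fun u _ => mul_nonneg (gs_nonneg s u) (kp_nonneg _)) u
  have hsum : ∑ n ∈ Finset.range N, Real.exp (-(((n : ℝ) + 1) / 2)) * ∫ u in Ioc 0 L, gs s u * kp ((n : ℝ) + 1 - u) ≤
      DD * As s L := by
    have e1 : ∀ n ∈ Finset.range N, Real.exp (-(((n : ℝ) + 1) / 2)) * ∫ u in Ioc 0 L, gs s u * kp ((n : ℝ) + 1 - u) =
        ∫ u in Ioc 0 L, Real.exp (-(((n : ℝ) + 1) / 2)) * (gs s u * kp ((n : ℝ) + 1 - u)) := fun n _ =>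
      (integral_const_mul _ _).symm
    rw [Finset.sum_congr rfl e1, ← integral_finsetSum _ fun n hn => (hker n hn).const_mul _]
    unfold As
    rw [← integral_const_mul]
    refine integral_mono (integrable_finsetSum _ fun n hn => (hker n hn).const_mul _) ((As_int hs L).const_mul _) fun u => ?_
    simp only
    have e2 : ∑ n ∈ Finset.range N, Real.exp (-(((n : ℝ) + 1) / 2)) * (gs s u * kp ((n : ℝ) + 1 - u)) =
        gs s u * Real.exp (-(u / 2)) * ∑ n ∈ Finset.range N, Real.exp (-(((n : ℝ) + 1 - u) / 2)) * kp ((n : ℝ) + 1 - u) := by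
      rw [Finset.mul_sum]
      refine Finset.sum_congr rfl fun n _ => ?_
      have : Real.exp (-(((n : ℝ) + 1) / 2)) = Real.exp (-(u / 2)) * Real.exp (-(((n : ℝ) + 1 - u) / 2)) := by
        rw [← Real.exp_add]; congr 1; ring
      rw [this]; ring
    rw [e2, mul_comm DD]
    exact mul_le_mul_of_nonneg_left (sum_kernel N u) (mul_nonneg (gs_nonneg s u) (Real.exp_pos _).le)
  have hstep : ∀ n ∈ Finset.range N, Real.exp (-(((n : ℝ) + 1) / 2)) * (∫ v, |Mx (Real.exp ((n : ℝ) + 1 - v))| * kp v) ≤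
      2 * (Real.exp (-(((n : ℝ) + 1) / 2)) * ∫ u in Ioc 0 L, gs s u * kp ((n : ℝ) + 1 - u)) + 2 * (T * Real.exp (-L)) +
        EE * Real.exp (-(((n : ℝ) + 1) / 2)) := by
    intro n hn
    have h1 := abs_avg hs ((n : ℝ) + 1)
    have h2 := tail (gs s) (gs_meas s) (gs_nonneg s) (gs_le hs) ((n : ℝ) + 1) a ha0
    have h3 := hmain n hn
    have h4 := htail n hn
    have he := Real.exp_pos (-(((n : ℝ) + 1) / 2))
    have h5 : ∫ v, |Mx (Real.exp ((n : ℝ) + 1 - v))| * kp v ≤
        2 * ((∫ u in Ioc 0 L, gs s u * kp ((n : ℝ) + 1 - u)) + T * (Real.exp ((n : ℝ) + 1 + a) * H313.TK.W (-a))) + EE := by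
      linarith
    have h6 := mul_le_mul_of_nonneg_left h5 he.le
    nlinarith
  have h7 := (A1_sum N).trans (Finset.sum_le_sum hstep)
  have e7 : ∑ n ∈ Finset.range N, (2 * (Real.exp (-(((n : ℝ) + 1) / 2)) * ∫ u in Ioc 0 L, gs s u * kp ((n : ℝ) + 1 - u)) +
      2 * (T * Real.exp (-L)) + EE * Real.exp (-(((n : ℝ) + 1) / 2))) =
      2 * (∑ n ∈ Finset.range N, Real.exp (-(((n : ℝ) + 1) / 2)) * ∫ u in Ioc 0 L, gs s u * kp ((n : ℝ) + 1 - u)) +
      2 * (∑ n ∈ Finset.range N, T * Real.exp (-L)) + EE * ∑ n ∈ Finset.range N, Real.exp (-(((n : ℝ) + 1) / 2)) := by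
    rw [Finset.sum_add_distrib, Finset.sum_add_distrib, Finset.mul_sum, Finset.mul_sum, Finset.mul_sum]
  rw [e7] at h7
  have h8 := hgeo N
  have h9 : k0 * Real.exp (-(1 / 2)) * A1 N ≤ 2 * (DD * As s L) + 2 * T + EE * (DD + 4) := by
    have := mul_le_mul_of_nonneg_left h8 hEE
    linarith
  have hc : 0 < k0 * Real.exp (-(1 / 2)) := by positivity
  rw [div_mul_eq_mul_div, le_div_iff₀ hc]
  have h10 : 0 ≤ T * As s L := by positivity
  have h11 : 0 ≤ EE * (DD + 4) * As s L := by positivity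
  nlinarith

end

end Pool.Agent.E8helper62.LP
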