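import Pool.Agent.E8helper62.LP.L1

/-!
# The integral of `M(e^s) e^{-s/2}` is bounded by the local mean
-/

set_option autoImplicit false

open MeasureTheory Filter Topology Set Pool.Agent.H295R2

namespace Pool.Agent.E8helper62.LP

noncomputable section

/-- `1 / √(i+1)` -/
def fa (i : ℕ) : ℝ := 1 / Real.sqrt ((i : ℝ) + 1)

lemma fa_anti : Antitone fa := by
  intro i j hij
  unfold fa
  have : (i : ℝ) ≤ j := by exact_mod_cast hij
  apply one_div_le_one_div_of_le (by positivity)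
  apply Real.sqrt_le_sqrt; linarith

lemma fa_zero : Tendsto fa atTop (𝓝 0) := by
  unfold fa
  have h : Tendsto (fun i : ℕ => Real.sqrt ((i : ℝ) + 1)) atTop atTop :=
    Real.tendsto_sqrt_atTop.comp (tendsto_atTop_add_const_right _ _ tendsto_natCast_atTop_atTop)
  refine h.inv_tendsto_atTop.congr fun i => ?_
  simp

/-- alternating sums -/
def Sa (n : ℕ) : ℝ := ∑ i ∈ Finset.range n, (-1) ^ i * fa i

lemma Sa_lim : ∃ l : ℝ, 0 < l ∧ ∀ n, |Sa n - l| ≤ fa n := by
  obtain ⟨l, hl⟩ := fa_anti.tendsto_alternating_series_of_tendsto_zero fa_zero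
  have hlo := fun k => fa_anti.alternating_series_le_tendsto hl k
  have hup := fun k => fa_anti.tendsto_le_alternating_series hl k
  refine ⟨l, ?_, fun n => ?_⟩
  · have h := hlo 1
    simp only [mul_one, Finset.sum_range_succ, Finset.range_zero, Finset.sum_empty, zero_add, pow_zero, one_mul,
      pow_one] at h
    have h1 : fa 1 < fa 0 := by
      unfold fa
      norm_num
      rw [inv_lt_one₀ (by positivity)]
      exact Real.lt_sqrt_of_sq_lt (by norm_num)
    linarith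
  · rcases Nat.even_or_odd n with ⟨k, hk⟩ | ⟨k, hk⟩
    · have h1 := hlo k
      have h2 := hup k
      rw [Finset.sum_range_succ] at h2
      have e : n = 2 * k := by omega
      rw [← e] at h1 h2
      have h3 : (-1 : ℝ) ^ n = 1 := by rw [e]; simp
      rw [h3, one_mul] at h2
      rw [abs_le]
      unfold Sa
      constructor <;> linarith
    · have h1 := hlo (k + 1)
      have h2 := hup k
      have e : n = 2 * k + 1 := hk
      have e2 : 2 * (k + 1) = n + 1 := by omega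
      rw [e2, Finset.sum_range_succ] at h1
      rw [← e] at h2
      have h3 : (-1 : ℝ) ^ n = -1 := by rw [e, pow_succ, pow_mul]; simp
      rw [h3] at h1
      rw [abs_le]
      unfold Sa
      constructor <;> linarith

/-- the sum over `j ≤ n` in terms of alternating sums -/
lemma Sa_eq (n : ℕ) : (∑ j ∈ Finset.Icc 1 n, (1 / Real.sqrt j)) - Real.sqrt 2 * ∑ j ∈ Finset.Icc 1 (n / 2), (1 / Real.sqrt j) =
    Sa n := by
  induction n with
  | zero => simp [Sa]
  | succ n ih =>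
    unfold Sa at ih ⊢
    rw [Finset.sum_range_succ, ← ih, Finset.sum_Icc_succ_top (by omega)]
    have h2 : Real.sqrt 2 * Real.sqrt 2 = 2 := Real.mul_self_sqrt (by norm_num)
    have h20 : 0 < Real.sqrt 2 := by positivity
    rcases Nat.even_or_odd n with ⟨k, hk⟩ | ⟨k, hk⟩
    · have e : (n + 1) / 2 = n / 2 := by omega
      have h3 : (-1 : ℝ) ^ n = 1 := by rw [hk]; simp
      rw [e, h3]
      unfold fa
      push_cast; ring
    · have e : (n + 1) / 2 = n / 2 + 1 := by omega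
      have h3 : (-1 : ℝ) ^ n = -1 := by rw [hk, pow_succ, pow_mul]; simp
      rw [e, h3, Finset.sum_Icc_succ_top (by omega)]
      unfold fa
      have e2 : ((n : ℝ) + 1) = 2 * ((n / 2 + 1 : ℕ) : ℝ) := by
        have : n + 1 = 2 * (n / 2 + 1) := by omega
        exact_mod_cast this
      have e3 : Real.sqrt ((n : ℝ) + 1) = Real.sqrt 2 * Real.sqrt ((n / 2 + 1 : ℕ) : ℝ) := by
        rw [e2, Real.sqrt_mul (by norm_num)]
      have h4 : 0 < Real.sqrt ((n / 2 + 1 : ℕ) : ℝ) := Real.sqrt_pos.2 (by positivity)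
      have e4 : ((n + 1 : ℕ) : ℝ) = (n : ℝ) + 1 := by push_cast; ring
      rw [e4, e3]
      field_simp
      nlinarith

/-- the step function `a(u) = ∑_{j ≤ e^u} (-1)^{j-1} j^{-1/2}` -/
def Gh (u : ℝ) : ℝ := Sa ⌊Real.exp u⌋₊

lemma half_cpow (j : ℕ) : (j : ℂ) ^ (-(1 / 2 : ℂ)) = ((1 / Real.sqrt j : ℝ) : ℂ) := by
  rcases Nat.eq_zero_or_pos j with h | h
  · rw [h]; simp
  · have hj : (0:ℝ) < j := by exact_mod_cast h
    have e : (j : ℂ) = ((j : ℝ) : ℂ) := by push_cast; rfl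
    rw [e, show (-(1 / 2 : ℂ)) = ((-(1 / 2) : ℝ) : ℂ) by push_cast; rfl, ← Complex.ofReal_cpow hj.le,
      Real.rpow_neg hj.le, Real.sqrt_eq_rpow]
    simp

lemma af_half : af (1 / 2) =ᵐ[volume] fun u => ((Gh u : ℝ) : ℂ) := by
  filter_upwards [af_ae_eq (1 / 2)] with u hu
  rw [hu]
  unfold AA Gh
  rw [← Sa_eq]
  have e1 : ⌊Real.exp (u - Real.log 2)⌋₊ = ⌊Real.exp u⌋₊ / 2 := by
    rw [Real.exp_sub, Real.exp_log (by norm_num)]
    exact_mod_cast Nat.floor_div_natCast (Real.exp u) 2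
  have e2 : (2 : ℂ) ^ (1 - 1 / 2 : ℂ) = ((Real.sqrt 2 : ℝ) : ℂ) := by
    rw [show (1 - 1 / 2 : ℂ) = ((1 / 2 : ℝ) : ℂ) by push_cast; ring, show (2 : ℂ) = ((2 : ℝ) : ℂ) by push_cast; rfl,
      ← Complex.ofReal_cpow (by norm_num), Real.sqrt_eq_rpow]
  rw [e1, e2]
  push_cast
  simp only [half_cpow]
  push_cast
  rfl

/-- **the primitive is controlled by the local mean** -/
theorem prim_bound : ∃ C : ℝ, 0 < C ∧ ∀ y : ℝ, 0 ≤ y → |∫ s in Ioc 0 y, ff s| ≤ C * (1 + Real.exp (-(y / 2)) * AL y) := by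
  obtain ⟨l, hl, hS⟩ := Sa_lim
  obtain ⟨C, hC, hb⟩ := conv_bound (ρ := 1 / 2) (by norm_num) (by norm_num)
  refine ⟨(C + ‖c0 (1 / 2)‖ + 2) / l, by positivity, fun y hy => ?_⟩
  set F : ℝ → ℂ := fun x => if 0 ≤ x then ((Gh x - l : ℝ) : ℂ) else 0 with hF
  have hFb : ∀ x, 0 ≤ x → ‖F x‖ ≤ 1 * Real.exp (-((1 / 2 : ℂ).re * x)) := by
    intro x hx
    rw [hF]
    simp only [if_pos hx]
    rw [Complex.norm_real, Real.norm_eq_abs, one_mul]
    unfold Gh
    refine (hS _).trans ?_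
    unfold fa
    have h1 : Real.exp x ≤ (⌊Real.exp x⌋₊ : ℝ) + 1 := (Nat.lt_floor_add_one _).le
    have h2 : Real.exp (x / 2) ≤ Real.sqrt ((⌊Real.exp x⌋₊ : ℝ) + 1) := by
      apply Real.le_sqrt_of_sq_le
      rw [← Real.exp_nat_mul]
      refine le_trans (le_of_eq ?_) h1
      congr 1; push_cast; ring
    calc 1 / Real.sqrt ((⌊Real.exp x⌋₊ : ℝ) + 1) ≤ 1 / Real.exp (x / 2) :=
          one_div_le_one_div_of_le (Real.exp_pos _) h2
      _ = _ := by
        rw [one_div, ← Real.exp_neg]; congr 1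
        norm_num; ring
  have hF0 : ∀ x < 0, F x = 0 := by
    intro x hx
    rw [hF]
    simp only [if_neg (not_le.2 hx)]
  have hd := decay_bound (ρ := 1 / 2) (by norm_num) one_pos hFb hF0 y
  have e1 : ∫ u, mf (1 / 2) (y - u) * af (1 / 2) u = ∫ s, mf (1 / 2) s * ((Gh (y - s) : ℝ) : ℂ) := by
    have : ∫ u, mf (1 / 2) (y - u) * af (1 / 2) u = ∫ u, mf (1 / 2) (y - u) * ((Gh u : ℝ) : ℂ) := by
      refine integral_congr_ae ?_
      filter_upwards [af_half] with u hu
      rw [hu]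
    rw [this, ← integral_sub_left_eq_self (fun s => mf (1 / 2) s * ((Gh (y - s) : ℝ) : ℂ)) volume y]
    simp
  have hGh0 : ∀ x < 0, Gh x = 0 := by
    intro x hx
    unfold Gh
    have : ⌊Real.exp x⌋₊ = 0 := by
      rw [Nat.floor_eq_zero, ← Real.exp_zero]; exact Real.exp_lt_exp.2 hx
    rw [this]; simp [Sa]
  have hmi : IntegrableOn (mf (1 / 2)) (Icc 0 y) := by
    rw [integrableOn_Icc_iff_integrableOn_Ioc]
    exact mf_iOn (by norm_num) y
  have hGm : Measurable Gh := by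
    unfold Gh
    exact (measurable_from_top (f := Sa)).comp (Nat.measurable_floor.comp Real.measurable_exp)
  have hFm : Measurable F := by
    rw [hF]
    refine Measurable.ite measurableSet_Ici ?_ measurable_const
    exact Complex.measurable_ofReal.comp (hGm.sub_const l)
  have key : ∫ s, mf (1 / 2) s * F (y - s) = (∫ s, mf (1 / 2) s * ((Gh (y - s) : ℝ) : ℂ)) -
      (l : ℂ) * ∫ s in Icc 0 y, mf (1 / 2) s := by
    have e2 : ∫ s, mf (1 / 2) s * F (y - s) = ∫ s in Icc 0 y, mf (1 / 2) s * F (y - s) := by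
      rw [setIntegral_eq_integral_of_forall_compl_eq_zero]
      intro s hs
      rw [mem_Icc, not_and_or, not_le, not_le] at hs
      rcases hs with hs | hs
      · rw [mf_zero hs, zero_mul]
      · rw [hF0 _ (by linarith), mul_zero]
    have e3 : ∫ s, mf (1 / 2) s * ((Gh (y - s) : ℝ) : ℂ) = ∫ s in Icc 0 y, mf (1 / 2) s * ((Gh (y - s) : ℝ) : ℂ) := by
      rw [setIntegral_eq_integral_of_forall_compl_eq_zero]
      intro s hs
      rw [mem_Icc, not_and_or, not_le, not_le] at hs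
      rcases hs with hs | hs
      · rw [mf_zero hs, zero_mul]
      · rw [hGh0 _ (by linarith)]; simp
    have e4 : ∫ s in Icc 0 y, mf (1 / 2) s * F (y - s) = ∫ s in Icc 0 y, (mf (1 / 2) s * ((Gh (y - s) : ℝ) : ℂ) - (l : ℂ) * mf (1 / 2) s) := by
      refine setIntegral_congr_fun measurableSet_Icc fun s hs => ?_
      rw [hF]
      simp only [if_pos (by linarith [hs.2] : 0 ≤ y - s)]
      push_cast; ring
    have hb1 : ∀ x, 0 ≤ x → ‖((Gh x : ℝ) : ℂ)‖ ≤ 1 + l := by
      intro x hx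
      rw [Complex.norm_real, Real.norm_eq_abs]
      have h1 := hS ⌊Real.exp x⌋₊
      have h2 : fa ⌊Real.exp x⌋₊ ≤ 1 := by
        refine (fa_anti (Nat.zero_le _)).trans (le_of_eq ?_)
        simp [fa]
      unfold Gh
      have h3 : |Sa ⌊Real.exp x⌋₊| ≤ |Sa ⌊Real.exp x⌋₊ - l| + |l| := by
        have := abs_add_le (Sa ⌊Real.exp x⌋₊ - l) l
        rwa [sub_add_cancel] at this
      rw [abs_of_pos hl] at h3
      linarith
    rw [e2, e3, e4, integral_sub _ (hmi.const_mul _), integral_const_mul]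
    have hm2 : Measurable fun s : ℝ => ((Gh (y - s) : ℝ) : ℂ) :=
      Complex.measurable_ofReal.comp (hGm.comp (measurable_const.sub measurable_id))
    refine (hmi.norm.mul_const (1 + l)).mono' ((mf_meas _).mul hm2).aestronglyMeasurable ?_
    filter_upwards [ae_restrict_mem measurableSet_Icc] with s hs
    rw [norm_mul]
    exact mul_le_mul_of_nonneg_left (hb1 _ (by linarith [hs.2])) (norm_nonneg _)
  rw [key, ← e1] at hd
  have e5 : ∫ s in Icc 0 y, mf (1 / 2) s = ((∫ s in Ioc 0 y, ff s : ℝ) : ℂ) := by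
    rw [integral_Icc_eq_integral_Ioc, ← integral_complex_ofReal]
    refine integral_congr_ae (Eventually.of_forall fun s => ?_)
    simp only
    unfold mf ff
    push_cast
    congr 2; ring
  rw [e5] at hd
  have h1 := hb y
  have h2 : C * Real.exp (-(((1 / 2 : ℂ).re - 1 / 4) * y)) ≤ C * 1 := by
    refine mul_le_mul_of_nonneg_left ?_ hC.le
    rw [Real.exp_le_one_iff]
    norm_num
    linarith
  have h3 : ‖(l : ℂ) * ((∫ s in Ioc 0 y, ff s : ℝ) : ℂ)‖ = l * |∫ s in Ioc 0 y, ff s| := by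
    rw [norm_mul, Complex.norm_real, Complex.norm_real, Real.norm_of_nonneg hl.le, Real.norm_eq_abs]
  have h4 : ‖(l : ℂ) * ((∫ s in Ioc 0 y, ff s : ℝ) : ℂ)‖ ≤
      ‖(∫ u, mf (1 / 2) (y - u) * af (1 / 2) u) - (l : ℂ) * ((∫ s in Ioc 0 y, ff s : ℝ) : ℂ)‖ +
      ‖(∫ u, mf (1 / 2) (y - u) * af (1 / 2) u) - c0 (1 / 2)‖ + ‖c0 (1 / 2)‖ := by
    set a := ∫ u, mf (1 / 2) (y - u) * af (1 / 2) u
    set b := (l : ℂ) * ((∫ s in Ioc 0 y, ff s : ℝ) : ℂ)
    have : b = -(a - b) + (a - c0 (1 / 2)) + c0 (1 / 2) := by ring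
    calc ‖b‖ = ‖-(a - b) + (a - c0 (1 / 2)) + c0 (1 / 2)‖ := by rw [← this]
      _ ≤ ‖-(a - b)‖ + ‖a - c0 (1 / 2)‖ + ‖c0 (1 / 2)‖ := norm_add₃_le
      _ = _ := by rw [norm_neg]
  rw [h3] at h4
  have h5 : 1 * Real.exp (-((1 / 2 : ℂ).re * y)) * (∫ s in Ioc 0 y, |Mx (Real.exp s)|) = Real.exp (-(y / 2)) * AL y := by
    unfold AL
    rw [one_mul]
    congr 2
    norm_num
    ring
  rw [h5] at hd
  have hE : 0 ≤ Real.exp (-(y / 2)) * AL y := mul_nonneg (Real.exp_pos _).le (AL_nonneg y)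
  have hc0 := norm_nonneg (c0 (1 / 2))
  rw [div_mul_eq_mul_div, le_div_iff₀ hl]
  nlinarith

end

end Pool.Agent.E8helper62.LP
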