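import Pool.Agent.E8helper62.LP.OS
import Pool.Agent.E8helper62.LP.PB
import Pool.Agent.E8helper62.LP.LP

/-!
# One-sided means along a sequence: the bound for each zero
-/

set_option autoImplicit false

open MeasureTheory Filter Topology Set Pool.Agent.H295R2

namespace Pool.Agent.E8helper62.LP

noncomputable section

/-- good points -/
lemma os_good {s : ℝ} (hs : s = 1 ∨ s = -1) {K η : ℝ} (hη : 0 < η) (hη1 : η < 1)
    (h : ∃ᶠ L in atTop, As s L ≤ K * L) :
    ∃ C : ℝ, 0 < C ∧ ∃ᶠ y in atTop, Real.exp (-(y / 2)) * AL y ≤ C ∧ A1 y ≤ C * y ∧ As s y ≤ K / (1 - η) ^ 2 * y := by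
  obtain ⟨C0, hC0, hA⟩ := A1_le_As hs
  have h1η : 0 < 1 - η := by linarith
  have hK : 0 ≤ K := by
    obtain ⟨L, hL, hL0⟩ := (h.and_eventually (eventually_gt_atTop 0)).exists
    have := (As_nonneg s L).trans hL
    by_contra hc
    push Not at hc
    nlinarith
  set K' : ℝ := C0 * (K + 1) / (1 - η) with hK'
  have hK'0 : 0 < K' := by positivity
  refine ⟨2 * K' / η + 1 + K' / (1 - η), by positivity, ?_⟩
  have hlim : Tendsto (fun L : ℝ => (Real.log (4 * L) / 2 + 1) / L) atTop (𝓝 0) := by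
    have h1 : Tendsto (fun L : ℝ => Real.log L / L) atTop (𝓝 0) := by
      have := Real.isLittleO_log_id_atTop.tendsto_div_nhds_zero
      simpa using this
    have h2 : Tendsto (fun L : ℝ => (Real.log 4 / 2 + 1) * L⁻¹ + (1 / 2) * (Real.log L / L)) atTop
        (𝓝 ((Real.log 4 / 2 + 1) * 0 + (1 / 2) * 0)) :=
      (tendsto_inv_atTop_zero.const_mul _).add (h1.const_mul _)
    rw [mul_zero, mul_zero, add_zero] at h2
    refine h2.congr' ?_
    filter_upwards [eventually_gt_atTop 0] with L hL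
    rw [Real.log_mul (by norm_num) hL.ne']
    field_simp
    ring
  have hev := hlim.eventually (gt_mem_nhds hη)
  rw [frequently_atTop] at h ⊢
  intro b
  obtain ⟨b1, hb1⟩ := eventually_atTop.1 hev
  obtain ⟨L, hL, hAs⟩ := h (max (max 1 b1) (|b| / (1 - η) ^ 2 + 1))
  have hL1 : 1 ≤ L := (le_max_left _ _).trans ((le_max_left _ _).trans hL)
  have hL2 : b1 ≤ L := (le_max_right _ _).trans ((le_max_left _ _).trans hL)
  have hL3 : |b| / (1 - η) ^ 2 + 1 ≤ L := (le_max_right _ _).trans hL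
  have hL0 : 0 < L := by linarith
  have h3 := hb1 L hL2
  rw [div_lt_iff₀ hL0] at h3
  have hlog : 0 ≤ Real.log (4 * L) := Real.log_nonneg (by linarith)
  have hpos : 0 ≤ L - Real.log (4 * L) / 2 := by nlinarith
  set N : ℕ := ⌊L - Real.log (4 * L) / 2⌋₊ with hN
  have hN1 : (N : ℝ) ≤ L - Real.log (4 * L) / 2 := Nat.floor_le hpos
  have hN2 : L - Real.log (4 * L) / 2 < N + 1 := Nat.lt_floor_add_one _
  have hN3 : (1 - η) * L ≤ N := by nlinarith
  have hN0 : (0:ℝ) < N := lt_of_lt_of_le (by positivity) hN3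
  have h4 := hA L hL1 N (by linarith)
  have h5 : A1 N ≤ K' * N := by
    calc A1 N ≤ C0 * (As s L + 1) := h4
      _ ≤ C0 * ((K + 1) * L) := mul_le_mul_of_nonneg_left (by nlinarith) hC0.le
      _ = K' * ((1 - η) * L) := by rw [hK']; field_simp
      _ ≤ _ := mul_le_mul_of_nonneg_left hN3 hK'0.le
  obtain ⟨y, hy, hE⟩ := exists_good hη hη1 hN0 h5
  have hy1 : (1 - η) ^ 2 * L ≤ y := by
    have := mul_le_mul_of_nonneg_left hN3 h1η.le
    nlinarith [hy.1]
  refine ⟨y, ?_, ?_, ?_, ?_⟩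
  · have h6 : |b| ≤ (1 - η) ^ 2 * L := by
      have h7 : 0 < (1 - η) ^ 2 := by positivity
      have h8 := mul_le_mul_of_nonneg_left hL3 h7.le
      rw [mul_add, mul_div_cancel₀ _ h7.ne'] at h8
      linarith
    linarith [le_abs_self b]
  · have : 0 < K' / (1 - η) := by positivity
    linarith
  · have h6 : A1 y ≤ K' / (1 - η) * y := by
      refine (A1_mono hy.2).trans (h5.trans ?_)
      have e : K' / (1 - η) * y = K' * y / (1 - η) := by ring
      rw [e, le_div_iff₀ h1η]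
      have := hy.1
      nlinarith
    have hy0 : 0 < y := lt_of_lt_of_le (by positivity) hy1
    have h7 : 0 < 2 * K' / η + 1 := by positivity
    nlinarith
  · have h6 : As s y ≤ As s L := As_mono hs (hy.2.trans (by linarith))
    refine h6.trans (hAs.trans ?_)
    rw [div_mul_eq_mul_div, le_div_iff₀ (by positivity)]
    calc K * L * (1 - η) ^ 2 = K * ((1 - η) ^ 2 * L) := by ring
      _ ≤ K * y := mul_le_mul_of_nonneg_left hy1 hK

lemma os_freq {s : ℝ} (hs : s = 1 ∨ s = -1) {K : ℝ} (h : ∃ᶠ L in atTop, As s L ≤ K * L) :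
    ∃ C : ℝ, ∃ᶠ y in atTop, A1 y ≤ C * y := by
  obtain ⟨C, hC, hf⟩ := os_good hs (η := 1 / 2) (by norm_num) (by norm_num) h
  exact ⟨C, hf.mono fun y hy => hy.2.1⟩

/-- the main inequality -/
lemma os_ineq {s : ℝ} (hs : s = 1 ∨ s = -1) {ρ : ℂ} (hρ : ρ.re = 1 / 2) (y : ℝ) (hy : 0 ≤ y) :
    ‖ww ρ‖ * y ≤ 2 * As s y + |∫ u in Ioc 0 y, ff u| + ‖PP ρ y - ww ρ * (y : ℂ)‖ := by
  have hs2 : s * s = 1 := by rcases hs with h | h <;> rw [h] <;> norm_num
  have hsabs : |s| = 1 := by rcases hs with h | h <;> rw [h] <;> norm_num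
  obtain ⟨c, hc, hcw⟩ : ∃ c : ℂ, ‖c‖ = 1 ∧ c * ww ρ = (‖ww ρ‖ : ℂ) := by
    by_cases h0 : ww ρ = 0
    · exact ⟨1, norm_one, by rw [h0]; simp⟩
    · refine ⟨(starRingEnd ℂ) (ww ρ) / (‖ww ρ‖ : ℂ), ?_, ?_⟩
      · rw [norm_div, RCLike.norm_conj, Complex.norm_real, norm_norm, div_self (norm_ne_zero_iff.2 h0)]
      · have hn : (‖ww ρ‖ : ℂ) ≠ 0 := by exact_mod_cast norm_ne_zero_iff.2 h0
        rw [div_mul_eq_mul_div, ← Complex.normSq_eq_conj_mul_self, Complex.normSq_eq_norm_sq]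
        push_cast
        field_simp
  set g : ℝ → ℝ := fun u => ((s : ℂ) * c * er ρ u).re with hg
  have hgb : ∀ u, |g u| ≤ 1 := by
    intro u
    refine (Complex.abs_re_le_norm _).trans (le_of_eq ?_)
    rw [norm_mul, norm_mul, Complex.norm_real, Real.norm_eq_abs, hsabs, hc, er_norm hρ]
    norm_num
  have hgc : Continuous g := by
    have := er_cont ρ
    exact Complex.continuous_re.comp (by fun_prop)
  have hfi : IntegrableOn ff (Ioc 0 y) := by
    unfold IntegrableOn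
    rw [← integrable_norm_iff ff_meas.aestronglyMeasurable]
    exact ff_int y
  have hfg : IntegrableOn (fun u => ff u * g u) (Ioc 0 y) := by
    refine (ff_int y).mono' (ff_meas.mul hgc.measurable).aestronglyMeasurable (Eventually.of_forall fun u => ?_)
    rw [norm_mul, Real.norm_eq_abs, Real.norm_eq_abs]
    calc |ff u| * |g u| ≤ |ff u| * 1 := mul_le_mul_of_nonneg_left (hgb u) (abs_nonneg _)
      _ = _ := mul_one _
  have h1 : ∫ u in Ioc 0 y, (s * ff u + s * (ff u * g u)) ≤ ∫ u in Ioc 0 y, 2 * (gs s u * Real.exp (-(u / 2))) := by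
    refine integral_mono ((hfi.const_mul s).add (hfg.const_mul s)) ((As_int hs y).const_mul 2) fun u => ?_
    simp only
    have h2 : s * ff u ≤ gs s u * Real.exp (-(u / 2)) := by
      unfold ff gs
      rw [← mul_assoc]
      exact mul_le_mul_of_nonneg_right (le_max_left _ _) (Real.exp_pos _).le
    have h3 := abs_le.1 (hgb u)
    have h4 : 0 ≤ gs s u * Real.exp (-(u / 2)) := mul_nonneg (gs_nonneg s u) (Real.exp_pos _).le
    calc s * ff u + s * (ff u * g u) = (s * ff u) * (1 + g u) := by ring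
      _ ≤ (gs s u * Real.exp (-(u / 2))) * (1 + g u) := mul_le_mul_of_nonneg_right h2 (by linarith)
      _ ≤ (gs s u * Real.exp (-(u / 2))) * 2 := mul_le_mul_of_nonneg_left (by linarith) h4
      _ = _ := by ring
  rw [integral_add (hfi.const_mul s) (hfg.const_mul s), integral_const_mul, integral_const_mul, integral_const_mul] at h1
  have h2 : ∫ u in Ioc 0 y, ff u * g u = ((s : ℂ) * c * PP ρ y).re := by
    unfold PP
    rw [← integral_const_mul]
    have hi : IntegrableOn (fun u => (s : ℂ) * c * mf ρ u) (Ioc 0 y) := (mf_iOn (by rw [hρ]; norm_num) y).const_mul _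
    have := integral_re hi
    simp only [RCLike.re_eq_complex_re] at this
    rw [← this]
    refine integral_congr_ae (Eventually.of_forall fun u => ?_)
    simp only [hg]
    rw [← m0_er]
    unfold m0
    have e : (s : ℂ) * c * (((Mx (Real.exp u) * Real.exp (-(u / 2)) : ℝ) : ℂ) * er ρ u) =
        ((ff u : ℝ) : ℂ) * ((s : ℂ) * c * er ρ u) := by
      unfold ff; ring
    rw [e, Complex.re_ofReal_mul]
  rw [h2] at h1
  have h3 : s * ((s : ℂ) * c * PP ρ y).re = (c * PP ρ y).re := by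
    have e : (s : ℂ) * c * PP ρ y = ((s : ℝ) : ℂ) * (c * PP ρ y) := by ring
    rw [e, Complex.re_ofReal_mul, ← mul_assoc, hs2, one_mul]
  have h4 : ‖ww ρ‖ * y - ‖PP ρ y - ww ρ * (y : ℂ)‖ ≤ (c * PP ρ y).re := by
    have e : c * PP ρ y = ((‖ww ρ‖ * y : ℝ) : ℂ) + c * (PP ρ y - ww ρ * (y : ℂ)) := by
      push_cast
      rw [← hcw]; ring
    rw [e, Complex.add_re, Complex.ofReal_re]
    have h5 : -‖PP ρ y - ww ρ * (y : ℂ)‖ ≤ (c * (PP ρ y - ww ρ * (y : ℂ))).re := by
      have h6 := Complex.abs_re_le_norm (c * (PP ρ y - ww ρ * (y : ℂ)))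
      rw [norm_mul, hc, one_mul] at h6
      exact (abs_le.1 h6).1
    linarith
  have h5 : -|∫ u in Ioc 0 y, ff u| ≤ s * ∫ u in Ioc 0 y, ff u := by
    have h6 := neg_abs_le (s * ∫ u in Ioc 0 y, ff u)
    rw [abs_mul, hsabs, one_mul] at h6
    exact h6
  rw [h3] at h1
  have h6 : ∫ u in Ioc 0 y, gs s u * Real.exp (-(u / 2)) = As s y := rfl
  rw [h6] at h1
  linarith

/-- **the one-sided bound for a single zero** -/
theorem os_ww_le {s : ℝ} (hs : s = 1 ∨ s = -1) {K : ℝ} (h : ∃ᶠ L in atTop, As s L ≤ K * L) {ρ : ℂ} (hρ : ρ.re = 1 / 2)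
    (hz : riemannZeta ρ = 0) : ‖ww ρ‖ ≤ 2 * K := by
  obtain ⟨C1, hf1⟩ := os_freq hs h
  have hd := simple_zero hf1 hρ hz
  obtain ⟨C2, hC2, hP⟩ := PP_approx hρ hz hd
  obtain ⟨C3, hC3, hQ⟩ := prim_bound
  have hη : ∀ η : ℝ, 0 < η → η < 1 → ‖ww ρ‖ ≤ 2 * (K / (1 - η) ^ 2) := by
    intro η hη hη1
    obtain ⟨C, hC, hg⟩ := os_good hs hη hη1 h
    refine le_of_forall_pos_le_add fun ε hε => ?_
    have hev : ∀ᶠ y : ℝ in atTop, (C2 + C3) * (1 + C) < ε * y := by
      have : Tendsto (fun y : ℝ => ε * y) atTop atTop := Tendsto.const_mul_atTop hε tendsto_id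
      exact this.eventually_gt_atTop _
    obtain ⟨y, ⟨hE, -, hA⟩, h2, h3⟩ := (hg.and_eventually (hev.and (eventually_ge_atTop 1))).exists
    have h4 := hP y (by linarith)
    have h5 := hQ y (by linarith)
    have h6 := os_ineq hs hρ y (by linarith)
    have h7 : C2 * (1 + Real.exp (-(y / 2)) * AL y) ≤ C2 * (1 + C) := by gcongr
    have h8 : C3 * (1 + Real.exp (-(y / 2)) * AL y) ≤ C3 * (1 + C) := by gcongr
    have h9 : ‖ww ρ‖ * y ≤ (2 * (K / (1 - η) ^ 2) + ε) * y := by nlinarith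
    exact le_of_mul_le_mul_right h9 (by linarith)
  have hlim : Tendsto (fun η : ℝ => 2 * (K / (1 - η) ^ 2)) (𝓝[>] 0) (𝓝 (2 * (K / (1 - 0) ^ 2))) := by
    have : ContinuousAt (fun η : ℝ => 2 * (K / (1 - η) ^ 2)) 0 := by
      refine ContinuousAt.mul continuousAt_const (ContinuousAt.div continuousAt_const (by fun_prop) (by norm_num))
    exact this.tendsto.mono_left nhdsWithin_le_nhds
  rw [sub_zero, one_pow, div_one] at hlim
  refine ge_of_tendsto hlim ?_
  filter_upwards [Ioo_mem_nhdsGT (show (0:ℝ) < 1 by norm_num)] with η hη'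
  exact hη η hη'.1 hη'.2

end

end Pool.Agent.E8helper62.LP
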