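import Pool.Agent.E8helper62.LP.Fin

/-!
# Passing from `x` to `log x`
-/

set_option autoImplicit false

open MeasureTheory Filter Topology Set Pool.Agent.H295R2

namespace Pool.Agent.E8helper62.LP

lemma trans_freq {F G : ℝ → ℝ} {K : ℝ} (hFG : ∀ x, 1 ≤ x → F x = G (Real.log x)) :
    (∃ᶠ x in atTop, F x / Real.log x ≤ K) ↔ ∃ᶠ L in atTop, G L ≤ K * L := by
  have h1 : (∃ᶠ x in atTop, F x / Real.log x ≤ K) ↔ ∃ᶠ L : ℝ in atTop, F (Real.exp L) / Real.log (Real.exp L) ≤ K := by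
    conv_lhs => rw [← Real.map_exp_atTop]
    exact frequently_map
  rw [h1]
  refine frequently_congr ?_
  filter_upwards [eventually_gt_atTop 0] with L hL
  rw [hFG _ (Real.one_le_exp hL.le), Real.log_exp, div_le_iff₀ hL]

lemma trans_ev {F G : ℝ → ℝ} {K : ℝ} (hFG : ∀ x, 1 ≤ x → F x = G (Real.log x)) :
    (∀ᶠ x in atTop, F x / Real.log x ≤ K) ↔ ∀ᶠ L in atTop, G L ≤ K * L := by
  have h1 : (∀ᶠ x in atTop, F x / Real.log x ≤ K) ↔ ∀ᶠ L : ℝ in atTop, F (Real.exp L) / Real.log (Real.exp L) ≤ K := by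
    conv_lhs => rw [← Real.map_exp_atTop]
    exact eventually_map
  rw [h1]
  refine eventually_congr ?_
  filter_upwards [eventually_gt_atTop 0] with L hL
  rw [hFG _ (Real.one_le_exp hL.le), Real.log_exp, div_le_iff₀ hL]

lemma abs_one {x : ℝ} (hx : 1 ≤ x) : ∫ u in (1:ℝ)..x, (|Mx u| / Real.sqrt u) ^ (1:ℝ) / u = A1 (Real.log x) := by
  rw [cov_p 1 hx]
  unfold Ap A1
  simp only [Real.rpow_one]

end Pool.Agent.E8helper62.LP
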